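import Mathlib

/-! Commutator spans, subquotients of algebras. -/

set_option autoImplicit false

namespace Pool.Agent.P.MP_618680_al

open Submodule

variable {k : Type} [CommRing k]

/-- The integers `1, …, P` are units. -/
def UnitsUpTo (k : Type) [CommRing k] (P : ℕ) : Prop := ∀ i : ℕ, 1 ≤ i → i ≤ P → IsUnit (i : k)

theorem UnitsUpTo.mono {P Q : ℕ} (h : UnitsUpTo k P) (hQ : Q ≤ P) : UnitsUpTo k Q :=
  fun i h1 h2 => h i h1 (h2.trans hQ)

section der

variable {A : Type} [Ring A] [Algebra k A] {A' : Type} [Ring A'] [Algebra k A']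

/-- Span of commutators of elements of `S`. -/
def der (S : Submodule k A) : Submodule k A :=
  span k {x | ∃ a ∈ S, ∃ b ∈ S, x = a * b - b * a}

theorem br_mem_der {S : Submodule k A} {a b : A} (ha : a ∈ S) (hb : b ∈ S) :
    a * b - b * a ∈ der S := subset_span ⟨a, ha, b, hb, rfl⟩

theorem der_le {S T : Submodule k A} (h : ∀ a ∈ S, ∀ b ∈ S, a * b - b * a ∈ T) : der S ≤ T := by
  refine span_le.2 ?_
  rintro x ⟨a, ha, b, hb, rfl⟩
  exact h a ha b hb

theorem der_mono {S T : Submodule k A} (h : S ≤ T) : der S ≤ der T :=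
  der_le fun _ ha _ hb => br_mem_der (h ha) (h hb)

theorem der_iter_mono {S T : Submodule k A} (h : S ≤ T) (r : ℕ) : der^[r] S ≤ der^[r] T := by
  induction r with
  | zero => exact h
  | succ r ih => rw [Function.iterate_succ_apply', Function.iterate_succ_apply']; exact der_mono ih

theorem der_iter_le {K : Submodule k A} (hK : der K ≤ K) (r : ℕ) : der^[r] K ≤ K := by
  induction r with
  | zero => exact le_rfl
  | succ r ih => rw [Function.iterate_succ_apply']; exact (der_mono ih).trans hK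

theorem der_map_le (f : A →ₗ[k] A') (hf : ∀ a b, f (a * b - b * a) = f a * f b - f b * f a)
    (S : Submodule k A) : der (S.map f) ≤ (der S).map f := by
  refine der_le ?_
  rintro _ ⟨a, ha, rfl⟩ _ ⟨b, hb, rfl⟩
  exact ⟨_, br_mem_der ha hb, hf a b⟩

theorem der_comap_le (f : A →ₗ[k] A') (hf : ∀ a b, f (a * b - b * a) = f a * f b - f b * f a)
    (S : Submodule k A') : der (S.comap f) ≤ (der S).comap f := by
  refine der_le fun a ha b hb => ?_
  rw [mem_comap, hf]
  exact br_mem_der ha hb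

theorem der_iter_of {Ψ : Submodule k A → Submodule k A'}
    (h : ∀ S, der (Ψ S) ≤ Ψ (der S)) (S : Submodule k A) (r : ℕ) :
    der^[r] (Ψ S) ≤ Ψ (der^[r] S) := by
  induction r with
  | zero => exact le_rfl
  | succ r ih =>
    rw [Function.iterate_succ_apply', Function.iterate_succ_apply']
    exact (der_mono ih).trans (h _)

/-- A bracket preserving map that keeps `K` keeps its derived terms. -/
theorem der_iter_stable (f : A →ₗ[k] A) (hf : ∀ a b, f (a * b - b * a) = f a * f b - f b * f a)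
    {K : Submodule k A} (hK : ∀ a ∈ K, f a ∈ K) (r : ℕ) : ∀ a ∈ der^[r] K, f a ∈ der^[r] K := by
  induction r with
  | zero => exact hK
  | succ r ih =>
    rw [Function.iterate_succ_apply']
    intro a ha
    have : der (der^[r] K) ≤ (der (der^[r] K)).comap f :=
      (der_mono (fun a ha => ih a ha)).trans (der_comap_le f hf _)
    exact this ha

/-- The adjoint map. -/
def adL (k : Type) [CommRing k] (A : Type) [Ring A] [Algebra k A] : A →ₗ[k] Module.End k A :=
  LinearMap.mul k A - (LinearMap.mul k A).flip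

theorem adL_apply (a b : A) : adL k A a b = a * b - b * a := by simp [adL]

theorem adL_br (a b : A) :
    adL k A (a * b - b * a) = adL k A a * adL k A b - adL k A b * adL k A a := by
  ext x
  simp only [adL_apply, LinearMap.sub_apply, Module.End.mul_apply]
  noncomm_ring

theorem ad_der_iter {K : Submodule k A} (hK : der K ≤ K) {a : A} (ha : a ∈ K) (r : ℕ) :
    ∀ x ∈ der^[r] K, a * x - x * a ∈ der^[r] K := by
  induction r with
  | zero => exact fun x hx => hK (br_mem_der ha hx)
  | succ r ih =>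
    rw [Function.iterate_succ_apply']
    intro x hx
    have : der (der^[r] K) ≤ (der (der^[r] K)).comap (adL k A a) := by
      refine der_le fun b hb c hc => ?_
      rw [mem_comap, adL_apply]
      have e : a * (b * c - c * b) - (b * c - c * b) * a =
          ((a * b - b * a) * c - c * (a * b - b * a)) + (b * (a * c - c * a) - (a * c - c * a) * b) := by
        noncomm_ring
      rw [e]
      exact add_mem (br_mem_der (ih b hb) hc) (br_mem_der hb (ih c hc))
    have := this hx
    rwa [mem_comap, adL_apply] at this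

theorem adL_pow {u : A} {N : ℕ} (hu : u ^ N = 0) : adL k A u ^ (2 * N) = 0 := by
  have e : adL k A u = LinearMap.mulLeft k u + (-LinearMap.mulRight k u) := by
    ext x; simp [adL_apply, sub_eq_add_neg]
  rw [e]
  have hc : Commute (LinearMap.mulLeft k u : Module.End k A) (LinearMap.mulRight k u) :=
    LinearMap.commute_mulLeft_right u u
  have h1 : (LinearMap.mulLeft k u : Module.End k A) ^ N = 0 := by
    rw [LinearMap.pow_mulLeft, hu]; simp
  have h2 : (-LinearMap.mulRight k u : Module.End k A) ^ N = 0 := by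
    have : (-LinearMap.mulRight k u : Module.End k A) = LinearMap.mulRight k (-u) := by
      ext x; simp
    rw [this, LinearMap.pow_mulRight, neg_pow, hu]; simp
  exact Commute.add_pow_eq_zero_of_add_le_succ_of_pow_eq_zero hc.neg_right h1 h2 (by omega)

end der

section subquot

variable {R : Type} [Ring R] [Algebra k R]

/-- The ideal of a subalgebra `T` cut out by a `T`-bimodule `J`. -/
def sqIdeal (T : Subalgebra k R) (J : Submodule k R) (hl : ∀ t ∈ T, ∀ j ∈ J, t * j ∈ J) :
    Ideal T where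
  carrier := {t | t.1 ∈ J}
  add_mem' := fun ha hb => J.add_mem ha hb
  zero_mem' := J.zero_mem
  smul_mem' := fun c _ hx => hl c.1 c.2 _ hx

theorem exists_subquot (T : Subalgebra k R) (J : Submodule k R)
    (hl : ∀ t ∈ T, ∀ j ∈ J, t * j ∈ J) (hr : ∀ t ∈ T, ∀ j ∈ J, j * t ∈ J) :
    ∃ (Q : Type) (_ : Ring Q) (_ : Algebra k Q) (π : T →ₐ[k] Q), (∀ t, π t = 0 ↔ t.1 ∈ J) ∧
      ∀ (θ : R →ₐ[k] R) (hT : ∀ t ∈ T, θ t ∈ T), (∀ j ∈ J, θ j ∈ J) →
        ∃ θ' : Q →ₐ[k] Q, ∀ t : T, θ' (π t) = π ⟨θ t, hT t t.2⟩ := by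
  have : (sqIdeal T J hl).IsTwoSided := ⟨fun {a} b ha => hr b.1 b.2 _ ha⟩
  refine ⟨T ⧸ sqIdeal T J hl, inferInstance, inferInstance, Ideal.Quotient.mkₐ k _, fun t => ?_,
    fun θ hT hJ => ?_⟩
  · rw [Ideal.Quotient.mkₐ_eq_mk, Ideal.Quotient.eq_zero_iff_mem]; rfl
  · let θ0 : T →ₐ[k] T := (θ.comp T.val).codRestrict T (fun t => hT t t.2)
    refine ⟨Ideal.Quotient.liftₐ _ ((Ideal.Quotient.mkₐ k _).comp θ0) fun a ha => ?_, fun t => rfl⟩
    rw [AlgHom.comp_apply, Ideal.Quotient.mkₐ_eq_mk, Ideal.Quotient.eq_zero_iff_mem]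
    exact hJ _ ha

variable {T : Subalgebra k R} {Q : Type} [Ring Q] [Algebra k Q]

/-- Push a submodule of `R` to the subquotient. -/
def push (π : T →ₐ[k] Q) (S : Submodule k R) : Submodule k Q :=
  (S.comap T.val.toLinearMap).map π.toLinearMap

theorem mem_push (π : T →ₐ[k] Q) {S : Submodule k R} {t : T} (h : t.1 ∈ S) : π t ∈ push π S :=
  ⟨t, h, rfl⟩

theorem push_mono (π : T →ₐ[k] Q) : Monotone (push π) :=
  fun _ _ h => map_mono (comap_mono h)

theorem push_der (π : T →ₐ[k] Q) (S : Submodule k R) : der (push π S) ≤ push π (der S) :=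
  (der_map_le _ (by simp) _).trans (map_mono (der_comap_le _ (by simp) _))

theorem push_mul (π : T →ₐ[k] Q) (S S' : Submodule k R) :
    push π S * push π S' ≤ push π (S * S') := by
  refine mul_le.2 ?_
  rintro _ ⟨a, ha, rfl⟩ _ ⟨b, hb, rfl⟩
  exact ⟨a * b, mul_mem_mul ha hb, by simp⟩

theorem push_pow (π : T →ₐ[k] Q) (S : Submodule k R) (c : ℕ) :
    push π S ^ c ≤ push π (S ^ c) := by
  induction c with
  | zero =>
    rw [pow_zero, pow_zero, Submodule.one_le]
    exact ⟨1, by simpa using (Submodule.one_le (P := (1 : Submodule k R))).1 le_rfl, by simp⟩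
  | succ c ih =>
    rw [pow_succ, pow_succ]
    exact (mul_le_mul_left ih _).trans (push_mul π _ _)

theorem push_eq_bot (π : T →ₐ[k] Q) {J S : Submodule k R} (hπ : ∀ t, π t = 0 ↔ t.1 ∈ J)
    (h : S ≤ J) : push π S = ⊥ := by
  rw [eq_bot_iff]
  rintro _ ⟨a, ha, rfl⟩
  exact (hπ a).2 (h ha)

theorem pow_le_of_quot (π : T →ₐ[k] Q) {J : Submodule k R} (hπ : ∀ t, π t = 0 ↔ t.1 ∈ J)
    {ι : Type} (u : ι → T) {c : ℕ} (h : span k (Set.range fun i => π (u i)) ^ c = ⊥) :
    span k (Set.range fun i => (u i).1) ^ c ≤ J := by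
  have e1 : span k (Set.range fun i => (u i).1) = (span k (Set.range u)).map T.val.toLinearMap := by
    rw [map_span, ← Set.range_comp]; rfl
  have e2 : span k (Set.range fun i => π (u i)) = (span k (Set.range u)).map π.toLinearMap := by
    rw [map_span, ← Set.range_comp]; rfl
  rw [e1, ← Submodule.map_pow]
  rw [e2, ← Submodule.map_pow] at h
  rintro _ ⟨a, ha, rfl⟩
  have : π a ∈ (⊥ : Submodule k Q) := h ▸ ⟨a, ha, rfl⟩
  exact (hπ a).1 this

end subquot

section stab

variable {M : Type} [AddCommGroup M] [Module k M]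

/-- Endomorphisms keeping `K` and `D`. -/
def stabT (K D : Submodule k M) : Subalgebra k (Module.End k M) where
  carrier := {f | (∀ x ∈ K, f x ∈ K) ∧ ∀ x ∈ D, f x ∈ D}
  mul_mem' := fun ha hb => ⟨fun x hx => ha.1 _ (hb.1 x hx), fun x hx => ha.2 _ (hb.2 x hx)⟩
  add_mem' := fun ha hb => ⟨fun x hx => K.add_mem (ha.1 x hx) (hb.1 x hx),
    fun x hx => D.add_mem (ha.2 x hx) (hb.2 x hx)⟩
  algebraMap_mem' := fun r => ⟨fun x hx => by simpa using K.smul_mem r hx,
    fun x hx => by simpa using D.smul_mem r hx⟩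

/-- Endomorphisms sending `K` to `D` and `D` to zero. -/
def stabJ (K D : Submodule k M) : Submodule k (Module.End k M) where
  carrier := {f | (∀ x ∈ K, f x ∈ D) ∧ ∀ x ∈ D, f x = 0}
  add_mem' := fun ha hb => ⟨fun x hx => D.add_mem (ha.1 x hx) (hb.1 x hx),
    fun x hx => by simp [ha.2 x hx, hb.2 x hx]⟩
  zero_mem' := ⟨fun _ _ => D.zero_mem, fun _ _ => rfl⟩
  smul_mem' := fun c _ ha => ⟨fun x hx => D.smul_mem c (ha.1 x hx),
    fun x hx => by simp [ha.2 x hx]⟩

theorem exists_stabquot (K D : Submodule k M) :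
    ∃ (Q : Type) (_ : Ring Q) (_ : Algebra k Q) (π : stabT K D →ₐ[k] Q),
      ∀ t, π t = 0 ↔ t.1 ∈ stabJ K D := by
  obtain ⟨Q, i1, i2, π, h, -⟩ := exists_subquot (stabT K D) (stabJ K D)
    (fun t ht j hj => ⟨fun x hx => ht.2 _ (hj.1 x hx), fun x hx => by
      rw [Module.End.mul_apply, hj.2 x hx, map_zero]⟩)
    (fun t ht j hj => ⟨fun x hx => hj.1 _ (ht.1 x hx), fun x hx => hj.2 _ (ht.2 x hx)⟩)
  exact ⟨Q, i1, i2, π, h⟩

end stab

end Pool.Agent.P.MP_618680_al
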