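import Pool.Agent.P.MP_618680_al.Basic

/-! A soluble Lie ring generated by finitely many nilpotent elements of an associative algebra
generates a nilpotent algebra of bounded index. -/

set_option autoImplicit false

namespace Pool.Agent.P.MP_618680_al

open Submodule

variable {k : Type} [CommRing k]

section

variable {A : Type} [Ring A]

/-- Iterated commutator. -/
def adw {ι : Type} (u : ι → A) (l : List ι) (a : A) : A :=
  l.foldr (fun i b => u i * b - b * u i) a

theorem adw_map {A' : Type} [Ring A'] (f : A →+* A') {ι : Type} (u : ι → A) (l : List ι) (a : A) :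
    f (adw u l a) = adw (fun i => f (u i)) l (f a) := by
  induction l with
  | nil => rfl
  | cons i l ih => simp only [adw, List.foldr_cons, map_sub, map_mul] at ih ⊢; rw [ih]

theorem pow_br {u v z : A} (hz : z = u * v - v * u) (hu : Commute z u) (a : ℕ) :
    u ^ (a + 1) * v - v * u ^ (a + 1) = ((a + 1 : ℕ) : A) * (u ^ a * z) := by
  induction a with
  | zero => simp [hz]
  | succ a ih =>
    have e : u ^ (a + 1 + 1) * v - v * u ^ (a + 1 + 1) =
        (u ^ (a + 1) * v - v * u ^ (a + 1)) * u + u ^ (a + 1) * (u * v - v * u) := by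
      rw [pow_succ u (a + 1)]; noncomm_ring
    rw [e, ih, ← hz, mul_assoc, mul_assoc, hu.eq, pow_succ u a]
    push_cast
    noncomm_ring

theorem central_br_pow [Algebra k A] {N : ℕ} (hP : UnitsUpTo k N) {u v z : A}
    (hz : z = u * v - v * u) (hu : Commute z u) (hv : Commute z v) (hN : u ^ N = 0) :
    z ^ N = 0 := by
  have key : ∀ b a, a + b = N → u ^ a * z ^ b = 0 := by
    intro b
    induction b with
    | zero => intro a h; simp at h; simp [h, hN]
    | succ b ih =>
      intro a h
      have h1 := ih (a + 1) (by omega)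
      have h2 : ((a + 1 : ℕ) : A) * (u ^ a * z ^ (b + 1)) = 0 := by
        rw [pow_succ' z, ← mul_assoc (u ^ a), ← mul_assoc, ← pow_br hz hu, sub_mul, mul_assoc,
          ← (hv.pow_left b).eq, ← mul_assoc, h1, mul_assoc, h1]
        simp
      have h3 : IsUnit ((a + 1 : ℕ) : A) := by
        simpa using (hP (a + 1) (by omega) (by omega)).map (algebraMap k A)
      exact h3.mul_right_eq_zero.1 h2
  simpa using key N 0 (by simp)

end

theorem sum_pow_eq_zero {S ι : Type*} [Semiring S] (s : Finset ι) (x : ι → S) {N : ℕ}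
    (hc : ∀ i j, Commute (x i) (x j)) (hN : ∀ i, x i ^ N = 0) :
    (∑ i ∈ s, x i) ^ (s.card * N + 1) = 0 := by
  classical
  induction s using Finset.induction_on with
  | empty => simp
  | insert a s ha ih =>
    rw [Finset.sum_insert ha, Finset.card_insert_of_notMem ha]
    refine Commute.add_pow_eq_zero_of_add_le_succ_of_pow_eq_zero
      (Commute.sum_right _ _ _ fun j _ => hc a j) (hN a) ih (by nlinarith)

theorem pow_eq_bot_mono {A : Type} [Ring A] [Algebra k A] {S : Submodule k A} {a b : ℕ}
    (h : S ^ a = ⊥) (hab : a ≤ b) : S ^ b = ⊥ := by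
  obtain ⟨c, rfl⟩ := Nat.exists_eq_add_of_le hab
  rw [pow_add, h, bot_mul]

/-- Bound in the nilpotent case. -/
def cN (m N : ℕ) : ℕ → ℕ
  | 0 => 1
  | c + 1 => cN m N c * (m ^ (c + 1) * N + 1)

theorem nilF' {N m : ℕ} (hP : UnitsUpTo k N) {ι : Type} [Fintype ι] (hm : Fintype.card ι ≤ m)
    (c : ℕ) : ∀ (A : Type) [Ring A] [Algebra k A] (u : ι → A), (∀ i, u i ^ N = 0) →
      (∀ l : List ι, l.length = c → ∀ j, adw u l (u j) = 0) →
      span k (Set.range u) ^ cN m N c = ⊥ := by
  induction c with
  | zero =>
    intro A _ _ u _ h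
    rw [cN, pow_one, span_eq_bot]
    rintro _ ⟨j, rfl⟩
    exact h [] rfl j
  | succ c ih =>
    intro A _ _ u hN h
    set T := Algebra.adjoin k (Set.range u) with hT
    have huT : ∀ i, u i ∈ T := fun i => Algebra.subset_adjoin ⟨i, rfl⟩
    have hadT : ∀ (l : List ι) j, adw u l (u j) ∈ T := by
      intro l j
      induction l with
      | nil => exact huT j
      | cons i l ih => exact T.sub_mem (T.mul_mem (huT i) ih) (T.mul_mem ih (huT i))
    let z : List.Vector ι c × ι → A := fun p => adw u p.1.1 (u p.2)
    have hzc : ∀ p, ∀ t ∈ T, Commute (z p) t := by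
      intro p t ht
      refine (Algebra.commute_of_mem_adjoin_of_forall_mem_commute ht ?_)
      rintro _ ⟨i, rfl⟩
      have := h (i :: p.1.1) (by simp [p.1.2]) p.2
      exact (sub_eq_zero.1 this).symm
    have hzN : ∀ p, z p ^ N = 0 := by
      rintro ⟨⟨l, hl⟩, j⟩
      cases l with
      | nil => exact hN j
      | cons i l =>
        exact central_br_pow hP (u := u i) (v := adw u l (u j)) rfl (hzc _ _ (huT i))
          (hzc _ _ (hadT l j)) (hN i)
    set Z : Submodule k A := ∑ p, span k {z p} with hZ
    have hZN : Z ^ (m ^ (c + 1) * N + 1) = ⊥ := by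
      refine pow_eq_bot_mono (sum_pow_eq_zero Finset.univ _ (fun p q => ?_) (N := N) fun p => ?_) ?_
      · change _ * _ = _ * _
        rw [span_mul_span, span_mul_span, Set.singleton_mul_singleton, Set.singleton_mul_singleton,
          (hzc p _ (hadT _ _)).eq]
      · rw [span_pow, Set.singleton_pow, hzN]; simp
      · have : Fintype.card (List.Vector ι c × ι) ≤ m ^ (c + 1) := by
          rw [Fintype.card_prod, card_vector, ← pow_succ]
          exact Nat.pow_le_pow_left hm _
        have := Nat.mul_le_mul_right N this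
        rw [Finset.card_univ]; omega
    set T' := Subalgebra.toSubmodule T with hT'
    have hZT : Commute Z T' := by
      refine Commute.sum_left _ _ _ fun p _ => ?_
      change _ * _ = _ * _
      apply le_antisymm
      · refine mul_le.2 fun a ha t ht => ?_
        obtain ⟨r, rfl⟩ := mem_span_singleton.1 ha
        rw [smul_mul_assoc, (hzc p t ht).eq]
        exact smul_mem _ _ (mul_mem_mul ht (mem_span_singleton_self _))
      · refine mul_le.2 fun t ht a ha => ?_
        obtain ⟨r, rfl⟩ := mem_span_singleton.1 ha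
        rw [mul_smul_comm, ← (hzc p t ht).eq]
        exact smul_mem _ _ (mul_mem_mul (mem_span_singleton_self _) ht)
    have hTT : T' * T' ≤ T' := mul_le.2 fun a ha b hb => T.mul_mem ha hb
    obtain ⟨Q, _, _, π, hπ, -⟩ := exists_subquot T (Z * T')
      (fun t ht j hj => by
        have : T' * (Z * T') ≤ Z * T' := by
          rw [← mul_assoc, ← hZT.eq, mul_assoc]; exact mul_le_mul_right hTT _
        exact this (mul_mem_mul ht hj))
      (fun t ht j hj => by
        have : (Z * T') * T' ≤ Z * T' := by
          rw [mul_assoc]; exact mul_le_mul_right hTT _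
        exact this (mul_mem_mul hj ht))
    let u' : ι → T := fun i => ⟨u i, huT i⟩
    have h1 := ih Q (fun i => π (u' i)) (fun i => by
      rw [← map_pow, show u' i ^ N = 0 from Subtype.ext (hN i), map_zero]) (fun l hl j => by
      have e := adw_map (π : T →+* Q) u' l (u' j)
      refine e.symm.trans ((hπ _).2 ?_)
      have e2 : (adw u' l (u' j)).1 = z (⟨l, hl⟩, j) := adw_map (T.val : T →+* A) u' l (u' j)
      rw [e2, ← mul_one (z _)]
      refine mul_mem_mul ?_ T.one_mem
      exact (Finset.single_le_sum (f := fun p => span k {z p}) (fun _ _ => bot_le)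
        (Finset.mem_univ _)) (mem_span_singleton_self _))
    have h2 := pow_le_of_quot π hπ u' h1
    rw [cN, pow_mul, eq_bot_iff]
    refine (pow_le_pow_left' h2 _).trans ?_
    rw [hZT.mul_pow, hZN, bot_mul]

theorem list_prod_mem_pow {A : Type} [Ring A] [Algebra k A] {ι : Type} (u : ι → A) (l : List ι) :
    (l.map u).prod ∈ span k (Set.range u) ^ l.length := by
  induction l with
  | nil => simpa using (Submodule.one_le (P := (1 : Submodule k A))).1 le_rfl
  | cons i l ih =>
    rw [List.map_cons, List.prod_cons, List.length_cons, pow_succ']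
    exact mul_mem_mul (subset_span ⟨i, rfl⟩) ih

theorem adw_eq_prod {A : Type} [Ring A] [Algebra k A] {ι : Type} (u : ι → A) (l : List ι) (a : A) :
    adw u l a = (l.map fun i => adL k A (u i)).prod a := by
  induction l with
  | nil => rfl
  | cons i l ih =>
    rw [List.map_cons, List.prod_cons, Module.End.mul_apply, ← ih, adL_apply]; rfl

/-- Bound in the soluble case. -/
def cS (m : ℕ) : ℕ → ℕ → ℕ
  | 0, _ => 1
  | r + 1, N => cN m N (2 * cS m r (2 * N))

theorem nilF {m : ℕ} {ι : Type} [Fintype ι] (hm : Fintype.card ι ≤ m) (r : ℕ) :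
    ∀ (N : ℕ), UnitsUpTo k (2 ^ r * N) → ∀ (A : Type) [Ring A] [Algebra k A] (K : Submodule k A)
      (u : ι → A), (∀ i, u i ∈ K) → der K ≤ K → der^[r] K = ⊥ → (∀ i, u i ^ N = 0) →
      span k (Set.range u) ^ cS m r N = ⊥ := by
  induction r with
  | zero =>
    intro N _ A _ _ K u hu _ h _
    rw [cS, pow_one, span_eq_bot]
    rintro _ ⟨j, rfl⟩
    have := hu j
    rwa [show K = ⊥ from h] at this
  | succ r ih =>
    intro N hP A _ _ K u hu hK h hN
    set D := der^[r] K with hD
    rw [Function.iterate_succ_apply', ← hD] at h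
    obtain ⟨Q, _, _, π, hπ⟩ := exists_stabquot K D
    have hT : ∀ a ∈ K, adL k A a ∈ stabT K D := fun a ha =>
      ⟨fun x hx => by rw [adL_apply]; exact hK (br_mem_der ha hx),
        fun x hx => by rw [adL_apply]; exact ad_der_iter hK ha r x hx⟩
    let u' : ι → stabT K D := fun i => ⟨adL k A (u i), hT _ (hu i)⟩
    let Ψ : Submodule k A → Submodule k Q := fun S => push π (S.map (adL k A))
    have hΨ : ∀ S, der (Ψ S) ≤ Ψ (der S) := fun S =>
      (push_der π _).trans (push_mono π (der_map_le _ adL_br S))
    have h1 := ih (2 * N) (hP.mono (by rw [pow_succ]; nlinarith)) Q (Ψ K) (fun i => π (u' i))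
      (fun i => mem_push π ⟨u i, hu i, rfl⟩) ((hΨ K).trans (push_mono π (map_mono hK)))
      (by
        rw [eq_bot_iff]
        refine (der_iter_of hΨ K r).trans (push_eq_bot π hπ ?_).le
        rintro _ ⟨a, ha, rfl⟩
        refine ⟨fun x hx => ?_, fun x hx => ?_⟩
        · rw [adL_apply, ← neg_sub]
          exact neg_mem (ad_der_iter hK hx r a ha)
        · rw [adL_apply]
          have := br_mem_der (S := D) ha hx
          rwa [h] at this)
      (fun i => by
        rw [← map_pow, show u' i ^ (2 * N) = 0 from Subtype.ext (adL_pow (hN i)), map_zero])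
    have h2 := pow_le_of_quot π hπ u' h1
    rw [cS]
    refine nilF' (hP.mono (Nat.le_mul_of_pos_left _ (by positivity))) hm _ A u hN fun l hl j => ?_
    rw [adw_eq_prod (k := k)]
    have h3 := list_prod_mem_pow (k := k) (fun i => adL k A (u i)) l
    rw [hl, two_mul, pow_add] at h3
    have h4 := (mul_le_mul' h2 h2) h3
    refine Submodule.mul_induction_on (C := fun f => f (u j) = 0) h4 (fun f hf g hg => ?_)
      (fun f g hf hg => by simp [hf, hg])
    exact hf.2 _ (hg.1 _ (hu j))

end Pool.Agent.P.MP_618680_al
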