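import Pool.Agent.P.MP_618680_al.Lazard
import Pool.Agent.P.MP_618680_al.NilF

/-! Bounding the unipotency class of boundedly generated invariant subgroups. -/

set_option autoImplicit false

namespace Pool.Agent.P.MP_618680_al

open Submodule Finset

variable {k : Type} [CommRing k] {A : Type} [Ring A] [Algebra k A] {W : Type} [Group W]
variable {D : ℕ} {ν : ℕ → k} {n : ℕ} {ω : kˣ}

theorem theta_Bs (ρ : W →* A) (φ : W →* W) (θ : A →ₐ[k] A) (hθ : ∀ w, θ (ρ w) = ρ (φ w)) (c : ℕ) :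
    ∀ a ∈ Bs k ρ ^ c, θ a ∈ Bs k ρ ^ c := by
  intro a ha
  have h1 : (Bs k ρ).map θ.toLinearMap ≤ Bs k ρ := by
    rw [map_le_iff_le_comap]
    refine span_le.2 ?_
    rintro _ ⟨w, rfl⟩
    change θ (ρ w - 1) ∈ Bs k ρ
    rw [map_sub, map_one, hθ]; exact mem_Bs ρ _
  have h2 : θ a ∈ (Bs k ρ ^ c).map θ.toLinearMap := ⟨a, ha, rfl⟩
  rw [Submodule.map_pow] at h2
  exact pow_le_pow_left' h1 c h2

/-- The class bound. -/
def cG (n m N : ℕ) : ℕ := cS m (2 ^ n - 1) N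

/-- How many integers have to be invertible. -/
def dG (n m N : ℕ) : ℕ := (n + 2) * (cG n m N + 1) + 2 ^ (2 ^ n - 1) * N

theorem Bs_bound (hω : GoodRoot n ω) (hν : IsLin D ν) (hP : UnitsUpTo k D) {m N : ℕ}
    (hD : dG n m N ≤ D) (ρ : W →* A) {s : ℕ} (hB : Bs k ρ ^ s = ⊥) (φ : W →* W)
    (θ : A →ₐ[k] A) (hθ : ∀ w, θ (ρ w) = ρ (φ w)) (hn : ∀ w, φ^[n] w = w)
    (h0 : ∀ w, nT φ n w = 1) {ι : Type} [Fintype ι] (hm : Fintype.card ι ≤ m) (u : ι → A)
    (hu : ∀ i, u i ∈ Ls D ν ρ) (hN : ∀ i, u i ^ N = 0)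
    (hgen : Bs k ρ ≤ span k (Set.range u) ⊔ Bs k ρ ^ 2) : Bs k ρ ^ cG n m N = ⊥ := by
  set c := cG n m N with hc
  have hD1 : (n + 2) * (c + 1) ≤ D := le_trans (Nat.le_add_right _ _) hD
  have hD2 : 2 ^ (2 ^ n - 1) * N ≤ D := le_trans (Nat.le_add_left _ _) hD
  have hD3 : 1 ≤ D := by nlinarith
  obtain ⟨Q, _, _, π, hπ, hθ'⟩ := exists_subquot (A0 k ρ) (Bs k ρ ^ (c + 1))
    (fun t ht j hj => A0_mul ρ c ht hj) (fun t ht j hj => mul_A0 ρ c ht hj)
  have hθT : ∀ t ∈ A0 k ρ, θ t ∈ A0 k ρ := by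
    intro t ht
    obtain ⟨a, ha, b, hb, rfl⟩ := Submodule.mem_sup.1 (ht : t ∈ (1 ⊔ Bs k ρ : Submodule k A))
    obtain ⟨r, rfl⟩ := Submodule.mem_one.1 ha
    rw [map_add, AlgHom.commutes]
    refine add_mem (Subalgebra.algebraMap_mem _ _) (Bs_le_A0 ρ ?_)
    simpa using theta_Bs ρ φ θ hθ 1 b (by simpa using hb)
  obtain ⟨θ', hθ'⟩ := hθ' θ hθT (theta_Bs ρ φ θ hθ _)
  let ρ0 : W →* A0 k ρ := ρ.codRestrict (A0 k ρ) (mem_A0 ρ)
  let ρ' : W →* Q := (π : A0 k ρ →* Q).comp ρ0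
  have hB' : Bs k ρ' ^ (c + 1) = ⊥ := by
    have e1 : Bs k ρ' ≤ push π (Bs k ρ) := by
      refine span_le.2 ?_
      rintro _ ⟨w, rfl⟩
      have := mem_push π (S := Bs k ρ) (t := ρ0 w - 1) (mem_Bs _ w)
      rw [map_sub_one' π (ρ0 w)] at this
      exact this
    rw [eq_bot_iff]
    exact (pow_le_pow_left' e1 _).trans ((push_pow π _ _).trans (push_eq_bot π hπ le_rfl).le)
  have hθρ : ∀ w, θ' (ρ' w) = ρ' (φ w) := fun w =>
    (hθ' (ρ0 w)).trans (congrArg π (Subtype.ext (hθ w)))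
  have hPc : UnitsUpTo k (c + 1) := hP.mono (by nlinarith)
  have huT : ∀ i, u i ∈ A0 k ρ := fun i => Bs_le_A0 ρ (Ls_le hν hD3 ρ (hu i))
  let u' : ι → A0 k ρ := fun i => ⟨u i, huT i⟩
  have hu' : ∀ i, π (u' i) ∈ Ls D ν ρ' := by
    intro i
    have : Ls D ν ρ ≤ ((Ls D ν ρ').comap π.toLinearMap).map (A0 k ρ).val.toLinearMap := by
      refine span_le.2 ?_
      rintro _ ⟨w, rfl⟩
      refine ⟨lg D ν (ρ0 w), ?_, lg_map (A0 k ρ).val D ν (ρ0 w)⟩
      change π _ ∈ Ls D ν ρ'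
      rw [lg_map]; exact mem_Ls ρ' w
    obtain ⟨a, ha, e⟩ := this (hu i)
    rwa [show u' i = a from Subtype.ext e.symm]
  have h1 := nilF hm (2 ^ n - 1) N (hP.mono hD2) Q (Ls D ν ρ') (fun i => π (u' i)) hu'
    (der_Ls hν hPc (by nlinarith) ρ' hB') (Ls_solv hω hν hPc hD1 ρ' hB' φ θ' hθρ hn h0)
    (fun i => by rw [← map_pow, show u' i ^ N = 0 from Subtype.ext (hN i), map_zero])
  have h2 : span k (Set.range u) ^ c ≤ Bs k ρ ^ (c + 1) := pow_le_of_quot π hπ u' h1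
  set U := span k (Set.range u) with hU
  have hUB : U ≤ Bs k ρ := by
    refine span_le.2 ?_
    rintro _ ⟨i, rfl⟩
    exact Ls_le hν hD3 ρ (hu i)
  have h3 : ∀ a, Bs k ρ ^ a ≤ U ^ a ⊔ Bs k ρ ^ (a + 1) := by
    intro a
    induction a with
    | zero => simp
    | succ a ih =>
      rw [pow_succ]
      refine (mul_le_mul_left ih _).trans ?_
      rw [Submodule.sup_mul, ← pow_succ]
      refine sup_le ((mul_le_mul_right hgen _).trans ?_) le_sup_right
      rw [Submodule.mul_sup, ← pow_succ]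
      refine sup_le_sup_left ((mul_le_mul_left (pow_le_pow_left' hUB a) _).trans ?_) _
      rw [← pow_add]
  have h4 : Bs k ρ ^ c ≤ Bs k ρ ^ (c + 1) := (h3 c).trans (sup_le h2 le_rfl)
  have h5 : ∀ j, Bs k ρ ^ c ≤ Bs k ρ ^ (c + j) := by
    intro j
    induction j with
    | zero => exact le_rfl
    | succ j ih =>
      refine h4.trans ?_
      rw [pow_succ, ← add_assoc, pow_succ]
      exact mul_le_mul_left ih _
  rw [eq_bot_iff]
  refine (h5 s).trans ?_
  rw [pow_add, hB, mul_bot]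

variable {G : Type} [Group G]

/-- Restriction of an endomorphism to an invariant subgroup. -/
def res (φ : G →* G) (H : Subgroup G) (hH : ∀ x ∈ H, φ x ∈ H) : H →* H :=
  (φ.comp H.subtype).codRestrict H fun x => hH x x.2

theorem res_iterate (φ : G →* G) (H : Subgroup G) (hH : ∀ x ∈ H, φ x ∈ H) (i : ℕ) (x : H) :
    (((res φ H hH)^[i] x : H) : G) = φ^[i] x := by
  induction i with
  | zero => rfl
  | succ i ih => rw [Function.iterate_succ_apply', Function.iterate_succ_apply', ← ih]; rfl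

theorem res_nT (φ : G →* G) (H : Subgroup G) (hH : ∀ x ∈ H, φ x ∈ H) (s : ℕ) (x : H) :
    ((nT (res φ H hH) s x : H) : G) = nT φ s x := by
  induction s with
  | zero => rfl
  | succ s ih => rw [nT, nT, Subgroup.coe_mul, ih, res_iterate]

theorem iterate_mem (φ : G →* G) {H : Subgroup G} (hH : ∀ x ∈ H, φ x ∈ H) (i : ℕ) {x : G}
    (hx : x ∈ H) : φ^[i] x ∈ H := by
  rw [← res_iterate φ H hH i ⟨x, hx⟩]; exact Subtype.prop _

theorem nT_mem (φ : G →* G) {H : Subgroup G} (hH : ∀ x ∈ H, φ x ∈ H) (s : ℕ) {x : G}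
    (hx : x ∈ H) : nT φ s x ∈ H := by
  rw [← res_nT φ H hH s ⟨x, hx⟩]; exact Subtype.prop _

/-- Iterated twisted norms. -/
def ev (φ : G →* G) : ℕ → G → G
  | 0, x => x
  | d + 1, x => nT φ (d + 1) (ev φ d x)

theorem ev_mem (φ : G →* G) {H : Subgroup G} (hH : ∀ x ∈ H, φ x ∈ H) (d : ℕ) {x : G}
    (hx : x ∈ H) : ev φ d x ∈ H := by
  induction d with
  | zero => exact hx
  | succ d ih => exact nT_mem φ hH _ ih

/-- The invariant subgroup generated by one element. -/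
def orb (φ : G →* G) (y : G) : Subgroup G := Subgroup.closure (Set.range fun i => φ^[i] y)

theorem mem_orb (φ : G →* G) (y : G) : y ∈ orb φ y := Subgroup.subset_closure ⟨0, rfl⟩

theorem closure_stable (φ : G →* G) {S : Set G} (h : ∀ x ∈ S, φ x ∈ Subgroup.closure S) :
    ∀ x ∈ Subgroup.closure S, φ x ∈ Subgroup.closure S := fun _ hx =>
  ((Subgroup.closure_le ((Subgroup.closure S).comap φ)).2 h) hx

theorem orb_stable (φ : G →* G) (y : G) : ∀ x ∈ orb φ y, φ x ∈ orb φ y := by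
  refine closure_stable φ ?_
  rintro _ ⟨i, rfl⟩
  exact Subgroup.subset_closure ⟨i + 1, Function.iterate_succ_apply' _ _ _⟩

theorem orb_le (φ : G →* G) {y : G} {H : Subgroup G} (hH : ∀ x ∈ H, φ x ∈ H) (hy : y ∈ H) :
    orb φ y ≤ H := by
  refine (Subgroup.closure_le _).2 ?_
  rintro _ ⟨i, rfl⟩
  exact iterate_mem φ hH i hy

theorem mem_Bs_res (ρ : G →* A) {H : Subgroup G} {g : G} (hg : g ∈ H) :
    ρ g - 1 ∈ Bs k (ρ.comp H.subtype) := mem_Bs (ρ.comp H.subtype) ⟨g, hg⟩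

theorem Bs_res_pow (ρ : G →* A) (H : Subgroup G) {s : ℕ} (hB : Bs k ρ ^ s = ⊥) :
    Bs k (ρ.comp H.subtype) ^ s = ⊥ := by
  rw [eq_bot_iff, ← hB]
  refine pow_le_pow_left' (span_le.2 ?_) s
  rintro _ ⟨w, rfl⟩
  exact mem_Bs ρ _

theorem mul_sub_mem (ρ : G →* A) {H : Subgroup G} {a b : G} (ha : a ∈ H) (hb : b ∈ H) :
    (ρ (a * b) - 1) - (ρ a - 1) - (ρ b - 1) ∈ Bs k (ρ.comp H.subtype) ^ 2 := by
  have e : (ρ (a * b) - 1) - (ρ a - 1) - (ρ b - 1) = (ρ a - 1) * (ρ b - 1) := by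
    rw [map_mul]; noncomm_ring
  rw [e, sq]
  exact mul_mem_mul (mem_Bs_res ρ ha) (mem_Bs_res ρ hb)

/-- Elements of `H` whose class modulo the square satisfies a linear condition. -/
def modSub (ρ : G →* A) (H : Subgroup G) (X : Submodule k A)
    (hX : Bs k (ρ.comp H.subtype) ^ 2 ≤ X) : Subgroup G where
  carrier := {g | g ∈ H ∧ ρ g - 1 ∈ X}
  mul_mem' := fun {a b} ha hb => ⟨H.mul_mem ha.1 hb.1, by
    have := add_mem (add_mem (hX (mul_sub_mem ρ ha.1 hb.1)) hb.2) ha.2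
    simpa using this⟩
  one_mem' := ⟨H.one_mem, by simp⟩
  inv_mem' := fun {a} ha => ⟨H.inv_mem ha.1, by
    have := neg_mem (add_mem (hX (mul_sub_mem ρ (H.inv_mem ha.1) ha.1)) ha.2)
    simpa using this⟩

theorem theta_pow_rho (ρ : G →* A) (φ : G →* G) (θ : A →ₐ[k] A) (hθ : ∀ w, θ (ρ w) = ρ (φ w))
    (w : G) (s : ℕ) : (θ.toLinearMap ^ s) (ρ w - 1) = ρ (φ^[s] w) - 1 := by
  induction s with
  | zero => simp
  | succ s ih =>
    rw [pow_succ', Module.End.mul_apply, ih, Function.iterate_succ_apply', ← hθ]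
    simp

theorem step1 (hω : GoodRoot n ω) (hν : IsLin D ν) (hP : UnitsUpTo k D)
    (hD : dG n n n ≤ D) (ρ : G →* A) {s : ℕ} (hB : Bs k ρ ^ s = ⊥) (φ : G →* G)
    (θ : A →ₐ[k] A) (hθ : ∀ w, θ (ρ w) = ρ (φ w)) (hn : ∀ w, φ^[n] w = w)
    (h0 : ∀ w, nT φ n w = 1) {d : ℕ}
    (hspec : ∀ (j : ℕ) (u : A), θ u = ((ω ^ j : kˣ) : k) • u →
      (∀ s, 1 ≤ s → s ≤ d → ¬ n ∣ j * s) → u ^ n = 0)
    {y : G} (hy : orb φ y ≤ orb φ (ev φ d y)) : (ρ y - 1) ^ cG n n n = 0 := by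
  classical
  have hD3 : 1 ≤ D := le_trans (by unfold dG; nlinarith [Nat.zero_le (2 ^ (2 ^ n - 1) * n)]) hD
  set H := orb φ y with hH
  have hHs := orb_stable φ y
  set ρH := ρ.comp H.subtype with hρH
  set B := Bs k ρH with hBdef
  have hθH : ∀ w, θ (ρH w) = ρH (res φ H hHs w) := fun w => hθ w
  have hnH : ∀ w, (res φ H hHs)^[n] w = w := fun w => Subtype.ext ((res_iterate ..).trans (hn _))
  have hL : lg D ν (ρ y) ∈ Ls D ν ρH := mem_Ls ρH ⟨y, mem_orb φ y⟩
  have hLe : ∀ j, θ (eP n θ.toLinearMap (ω ^ j) (lg D ν (ρ y))) =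
      ((ω ^ j : kˣ) : k) • eP n θ.toLinearMap (ω ^ j) (lg D ν (ρ y)) := fun j =>
    eP_eigen (θ := θ.toLinearMap) (hω.pow_pow j) (theta_pow_Ls ρH _ θ hθH hnH _ hL)
  have hB2 : ∀ j, ∀ a ∈ B ^ 2, eP n θ.toLinearMap (ω ^ j) a ∈ B ^ 2 := fun j a ha =>
    eP_mem n _ (theta_Bs ρH _ θ hθH 2) ha
  have hbad : ∀ j, ¬ (∀ s, 1 ≤ s → s ≤ d → ¬ n ∣ j * s) →
      eP n θ.toLinearMap (ω ^ j) (lg D ν (ρ y)) ∈ B ^ 2 := by
    intro j hj
    set e := eP n θ.toLinearMap (ω ^ j) with he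
    have h1 : ∀ x i, e (ρ (φ^[i] x) - 1) = ((ω : k) ^ j) ^ i • e (ρ x - 1) := by
      intro x i
      induction i with
      | zero => simp
      | succ i ih =>
        have h2 := theta_pow_rho ρ φ θ hθ (φ^[i] x) 1
        rw [pow_one, Function.iterate_one] at h2
        rw [Function.iterate_succ_apply', ← h2, he, eP_comm, eP_eigen (hω.pow_pow j)
          (by rw [theta_pow_rho ρ φ θ hθ, hn]), ← he, ih, smul_smul, pow_succ']
        simp
    have h2 : ∀ x ∈ H, ∀ s, e (ρ (nT φ s x) - 1) -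
        (∑ i ∈ range s, ((ω : k) ^ j) ^ i) • e (ρ x - 1) ∈ B ^ 2 := by
      intro x hx s
      induction s with
      | zero => simp [nT]
      | succ s ih =>
        have h3 := hB2 j _ (mul_sub_mem ρ (nT_mem φ hHs s hx) (iterate_mem φ hHs s hx))
        rw [← he, map_sub, map_sub e _ (ρ (nT φ s x) - 1), h1] at h3
        have := add_mem h3 ih
        rw [nT, sum_range_succ, add_smul]
        convert this using 1
        abel
    have h3 : e (ρ y - 1) ∈ B ^ 2 := by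
      by_cases hj0 : n ∣ j
      · have h4 := h2 y (mem_orb φ y) n
        obtain ⟨c, rfl⟩ := hj0
        rw [h0, pow_mul, ← Units.val_pow_eq_pow_val ω n, hω.pow] at h4
        simp only [map_one, sub_self, map_zero, Units.val_one, one_pow, sum_const, card_range,
          nsmul_eq_mul, mul_one, zero_sub, neg_mem_iff] at h4
        exact (smul_mem_iff_of_isUnit _ hω.nunit).1 h4
      · push Not at hj
        obtain ⟨s, hs1, hs2, hs⟩ := hj
        let S := modSub ρ H ((B ^ 2).comap e) (fun a ha => mem_comap.2 (hB2 j a ha))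
        have hS : ∀ x ∈ S, φ x ∈ S := fun x hx => ⟨hHs x hx.1, by
          have := h1 x 1
          rw [Function.iterate_one] at this
          rw [mem_comap, this]
          exact smul_mem _ _ hx.2⟩
        have h4 : ∀ t, ev φ (s + t) y ∈ S := by
          intro t
          induction t with
          | zero =>
            obtain ⟨s, rfl⟩ := Nat.exists_eq_add_of_le' hs1
            have h5 := ev_mem φ hHs s (mem_orb φ y)
            have h6 := h2 _ h5 (s + 1)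
            rw [hω.geom hj0 hs, zero_smul, sub_zero] at h6
            exact ⟨nT_mem φ hHs _ h5, h6⟩
          | succ t ih => exact nT_mem φ hS _ ih
        obtain ⟨t, rfl⟩ := Nat.exists_eq_add_of_le hs2
        exact (orb_le φ hS (h4 t) (hy (mem_orb φ y))).2
    have h4 : lg D ν (ρ y) - (ρ y - 1) ∈ B ^ 2 := lg_sub_mem hν hD3 ρH ⟨y, mem_orb φ y⟩
    have := add_mem (hB2 j _ h4) h3
    rw [← he, ← map_add, sub_add_cancel] at this
    exact this
  let u : Fin n → A := fun j => if ∀ s, 1 ≤ s → s ≤ d → ¬ n ∣ j * s then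
    eP n θ.toLinearMap (ω ^ (j : ℕ)) (lg D ν (ρ y)) else 0
  refine pow_eq_zero_of_Bs ρH (Bs_bound hω hν hP hD ρH (Bs_res_pow ρ H hB) (res φ H hHs) θ hθH hnH
    (fun w => Subtype.ext ((res_nT ..).trans (h0 _))) (by simp) u (fun j => ?_) (fun j => ?_) ?_)
    ⟨y, mem_orb φ y⟩
  · simp only [u]
    split_ifs
    · exact eP_mem n _ (theta_Ls ρH _ θ hθH) hL
    · exact zero_mem _
  · simp only [u]
    split_ifs with h
    · exact hspec j _ (hLe j) h
    · exact zero_pow hω.pos.ne'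
  · have h1 : H ≤ modSub ρ H (span k (Set.range u) ⊔ B ^ 2) le_sup_right := by
      refine (Subgroup.closure_le _).2 ?_
      rintro _ ⟨i, rfl⟩
      have hi := iterate_mem φ hHs i (mem_orb φ y)
      refine ⟨hi, ?_⟩
      have h2 : lg D ν (ρ (φ^[i] y)) ∈ span k (Set.range u) ⊔ B ^ 2 := by
        rw [← theta_pow_lg ρ φ θ hθ, ← sum_eP hω θ.toLinearMap (lg D ν (ρ y)), map_sum]
        refine sum_mem fun j hj => ?_
        rw [pow_apply_eigen (θ := θ.toLinearMap) (hLe j)]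
        refine smul_mem _ _ ?_
        by_cases h : ∀ s, 1 ≤ s → s ≤ d → ¬ n ∣ j * s
        · exact mem_sup_left (subset_span ⟨⟨j, mem_range.1 hj⟩, if_pos h⟩)
        · exact mem_sup_right (hbad j h)
      have := sub_mem h2 (mem_sup_right (lg_sub_mem hν hD3 ρH ⟨_, hi⟩))
      simpa [hρH] using this
    refine span_le.2 ?_
    rintro _ ⟨w, rfl⟩
    exact (h1 w.2).2

/-- Derived series of a subgroup. -/
def dser (H : Subgroup G) : ℕ → Subgroup G
  | 0 => H
  | r + 1 => ⁅dser H r, dser H r⁆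

theorem dser_eq_map (H : Subgroup G) (r : ℕ) : dser H r = (derivedSeries H r).map H.subtype := by
  induction r with
  | zero => simp [dser, ← MonoidHom.range_eq_map]
  | succ r ih => rw [dser, derivedSeries_succ, Subgroup.map_commutator, ih]

theorem dser_mono {H H' : Subgroup G} (h : H ≤ H') (r : ℕ) : dser H r ≤ dser H' r := by
  induction r with
  | zero => exact h
  | succ r ih => exact Subgroup.commutator_mono ih ih

theorem dser_derived (a r : ℕ) : dser (derivedSeries G a) r = derivedSeries G (a + r) := by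
  induction r with
  | zero => rfl
  | succ r ih => rw [dser, ih, ← add_assoc, derivedSeries_succ]

theorem step3 (hω : GoodRoot n ω) (hν : IsLin D ν) (hP : UnitsUpTo k D) {m N : ℕ}
    (hD : dG n (n * m) N ≤ D) (ρ : G →* A) {s : ℕ} (hB : Bs k ρ ^ s = ⊥) (φ : G →* G)
    (θ : A →ₐ[k] A) (hθ : ∀ w, θ (ρ w) = ρ (φ w)) (hn : ∀ w, φ^[n] w = w)
    (h0 : ∀ w, nT φ n w = 1) (F : Finset G) (hF : F.card ≤ m) (hN : ∀ f ∈ F, (ρ f - 1) ^ N = 0) :
    dser (Subgroup.closure (F : Set G)) (2 * (2 ^ n - 1)) ≤ ρ.ker := by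
  have hD1 : (n + 2) * (cG n (n * m) N + 1) ≤ D := le_trans (Nat.le_add_right _ _) hD
  have hD3 : 1 ≤ D := by nlinarith
  let g : Fin n × F → G := fun p => φ^[p.1] p.2
  set H := Subgroup.closure (Set.range g) with hH
  have hHs : ∀ x ∈ H, φ x ∈ H := by
    refine closure_stable φ ?_
    rintro _ ⟨⟨i, f⟩, rfl⟩
    refine Subgroup.subset_closure ?_
    by_cases hi : (i : ℕ) + 1 < n
    · exact ⟨(⟨i + 1, hi⟩, f), Function.iterate_succ_apply' _ _ _⟩
    · refine ⟨(⟨0, hω.pos⟩, f), ?_⟩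
      simp only [g]
      rw [← Function.iterate_succ_apply' φ, Nat.succ_eq_add_one,
        show (i : ℕ) + 1 = n by have := i.2; omega, hn]
      rfl
  set ρH := ρ.comp H.subtype with hρH
  have hθH : ∀ w, θ (ρH w) = ρH (res φ H hHs w) := fun w => hθ w
  have hnH : ∀ w, (res φ H hHs)^[n] w = w := fun w => Subtype.ext ((res_iterate ..).trans (hn _))
  have h0H : ∀ w, nT (res φ H hHs) n w = 1 := fun w => Subtype.ext ((res_nT ..).trans (h0 _))
  have hg : ∀ p, g p ∈ H := fun p => Subgroup.subset_closure ⟨p, rfl⟩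
  have h1 := Bs_bound hω hν hP hD ρH (Bs_res_pow ρ H hB) (res φ H hHs) θ hθH hnH h0H
    (ι := Fin n × F) (by simpa using Nat.mul_le_mul_left n hF) (fun p => lg D ν (ρ (g p)))
    (fun p => mem_Ls ρH ⟨_, hg p⟩)
    (fun p => lg_pow hν hD3 (by
      have h2 : ∀ i, (ρ (φ^[i] p.2) - 1) ^ N = 0 := by
        intro i
        induction i with
        | zero => exact hN _ p.2.2
        | succ i ih =>
          rw [Function.iterate_succ_apply', ← hθ, ← map_one θ, ← map_sub, ← map_pow, ih, map_zero]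
      exact h2 _))
    (by
      have h1 : H ≤ modSub ρ H (span k (Set.range fun p => lg D ν (ρ (g p))) ⊔ Bs k ρH ^ 2)
          le_sup_right := by
        refine (Subgroup.closure_le _).2 ?_
        rintro _ ⟨p, rfl⟩
        refine ⟨hg p, ?_⟩
        have := sub_mem (mem_sup_left (S := span k (Set.range fun p => lg D ν (ρ (g p))))
          (subset_span ⟨p, rfl⟩)) (mem_sup_right (lg_sub_mem hν hD3 ρH ⟨_, hg p⟩))
        simpa [hρH] using this
      refine span_le.2 ?_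
      rintro _ ⟨w, rfl⟩
      exact (h1 w.2).2)
  have hPc : UnitsUpTo k (cG n (n * m) N) := hP.mono (by nlinarith)
  have h2 := derived_trivial hν hPc (by nlinarith) hD3 _ A ρH h1
    (Ls_solv hω hν hPc (by nlinarith) ρH h1 _ θ hθH hnH h0H)
  have h3 : Subgroup.closure (F : Set G) ≤ H :=
    Subgroup.closure_mono fun f hf => ⟨(⟨0, hω.pos⟩, ⟨f, hf⟩), rfl⟩
  refine (dser_mono h3 _).trans ?_
  rw [dser_eq_map]
  rintro _ ⟨w, hw, rfl⟩
  exact h2 hw

end Pool.Agent.P.MP_618680_al
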