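import Pool.Agent.P.MP_618680_al.Rep

/-! Bounded derived length for nilpotent groups without small primes. -/

set_option autoImplicit false

namespace Pool.Agent.P.MP_618680_al

open Submodule Finset
open scoped commutatorElement

variable {k : Type} [CommRing k] {G : Type} [Group G]

/-- Values of the derived words on a set. -/
def dset (S : Set G) : ℕ → Set G
  | 0 => S
  | a + 1 => {z | ∃ x ∈ dset S a, ∃ y ∈ dset S a, z = ⁅x, y⁆}

theorem dset_conj {S : Set G} (hS : ∀ x ∈ S, ∀ g, g * x * g⁻¹ ∈ S) (a : ℕ) :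
    ∀ x ∈ dset S a, ∀ g, g * x * g⁻¹ ∈ dset S a := by
  induction a with
  | zero => exact hS
  | succ a ih =>
    rintro _ ⟨x, hx, y, hy, rfl⟩ g
    exact ⟨_, ih x hx g, _, ih y hy g, by group⟩

theorem closure_normal {S : Set G} (hS : ∀ x ∈ S, ∀ g, g * x * g⁻¹ ∈ S) :
    (Subgroup.closure S).Normal :=
  ⟨fun x hx g => closure_stable (MulAut.conj g).toMonoidHom
    (fun y hy => Subgroup.subset_closure (hS y hy g)) x hx⟩

theorem dser_closure_le {S : Set G} (hS : ∀ x ∈ S, ∀ g, g * x * g⁻¹ ∈ S) (a : ℕ) :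
    dser (Subgroup.closure S) a ≤ Subgroup.closure (dset S a) := by
  induction a with
  | zero => exact le_rfl
  | succ a ih =>
    refine (Subgroup.commutator_mono ih ih).trans ?_
    have := closure_normal (dset_conj hS (a + 1))
    set N := Subgroup.closure (dset S (a + 1))
    rw [← QuotientGroup.ker_mk' N, ← Subgroup.map_eq_bot_iff, Subgroup.map_commutator,
      MonoidHom.map_closure, Subgroup.commutator_eq_bot_iff_le_centralizer,
      Subgroup.centralizer_closure, Subgroup.closure_le]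
    rintro _ ⟨x, hx, rfl⟩ _ ⟨y, hy, rfl⟩
    rw [← commute_iff_eq, ← commutatorElement_eq_one_iff_commute, ← map_commutatorElement,
      ← MonoidHom.mem_ker, QuotientGroup.ker_mk']
    exact Subgroup.subset_closure ⟨y, hy, x, hx, rfl⟩

theorem dset_finset (S : Set G) (a : ℕ) : ∀ z ∈ dset S a, ∃ F : Finset G, F.card ≤ 2 ^ a ∧
    (F : Set G) ⊆ S ∧ z ∈ dser (Subgroup.closure (F : Set G)) a := by
  classical
  induction a with
  | zero => exact fun z hz => ⟨{z}, by simp, by simpa [dset] using hz, Subgroup.subset_closure (by simp)⟩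
  | succ a ih =>
    rintro _ ⟨x, hx, y, hy, rfl⟩
    obtain ⟨F1, h1, h2, h3⟩ := ih x hx
    obtain ⟨F2, h4, h5, h6⟩ := ih y hy
    refine ⟨F1 ∪ F2, (card_union_le _ _).trans (by rw [pow_succ]; omega), by simp [h2, h5], ?_⟩
    exact Subgroup.commutator_mem_commutator
      (dser_mono (Subgroup.closure_mono (by simp)) a h3)
      (dser_mono (Subgroup.closure_mono (by simp)) a h6)

theorem exists_stable [Finite G] (φ : G →* G) (d : ℕ) (x : G) :
    ∃ r, orb φ ((ev φ d)^[r] x) ≤ orb φ (ev φ d ((ev φ d)^[r] x)) := by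
  obtain ⟨_, ⟨r, rfl⟩, h⟩ := (wellFounded_lt (α := Subgroup G)).has_min
    (Set.range fun r => orb φ ((ev φ d)^[r] x)) ⟨_, 0, rfl⟩
  refine ⟨r, ?_⟩
  have h1 := h _ ⟨r + 1, rfl⟩
  simp only [Function.iterate_succ_apply'] at h1
  have h2 : orb φ (ev φ d ((ev φ d)^[r] x)) ≤ orb φ ((ev φ d)^[r] x) :=
    orb_le φ (orb_stable φ _) (ev_mem φ (orb_stable φ _) d (mem_orb φ _))
  exact (eq_of_le_of_not_lt h2 h1).ge

/-- Total number of invertible integers needed. -/
def dM (n : ℕ) : ℕ := dG n n n + dG n (n * 2 ^ (2 * (2 ^ n - 1))) (cG n n n) + n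

theorem exists_layer {n E D : ℕ} {ω : kˣ} {ν : ℕ → k} (hω : GoodRoot n ω) (hν : IsLin D ν)
    (hP : UnitsUpTo k D) (hD : dM n ≤ D) (hF : Faith k E) [Finite G] [Group.IsNilpotent G]
    (hE : ∀ x : G, x ^ E = 1) (φ : G →* G) (hn : ∀ x, φ^[n] x = x) (h0 : ∀ x, nT φ n x = 1)
    {d : ℕ} (hd : d + 1 ≤ n) (hQ : ∀ x, ∃ r, (ev φ (d + 1))^[r] x = 1) (U : Subgroup G) [U.Normal]
    (hU : ∀ x ∈ U, φ x ∈ U) : ∃ L : Subgroup G, L.Normal ∧ (∀ x ∈ L, φ x ∈ L) ∧
      (∀ x, ∃ r, (ev φ d)^[r] x ∈ L) ∧ ⁅dser L (2 * (2 ^ n - 1)), U⁆ ≤ ⁅U, U⁆ := by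
  obtain ⟨V, _, _, lam, hadd, hker, hspan, hext⟩ := exists_rep hF hE U
  have hUc : ∀ g, ∀ x ∈ U, g * x * g⁻¹ ∈ U := fun g x hx => Subgroup.Normal.conj_mem ‹_› x hx g
  choose ρ0 hρ0 using fun g => hext (MulAut.conj g).toMonoidHom (hUc g)
  have hρ0' : ∀ g, ∀ x ∈ U, ρ0 g (lam x) = lam (g * x * g⁻¹) := hρ0
  obtain ⟨Φ, hΦ⟩ := hext φ hU
  have hx : ∀ F F' : Module.End k V, (∀ x ∈ U, F (lam x) = F' (lam x)) → F = F' :=
    fun F F' h => LinearMap.ext_on hspan (by rintro _ ⟨x, hx, rfl⟩; exact h x hx)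
  let ρ : G →* Module.End k V :=
    { toFun := ρ0
      map_one' := hx _ _ fun x hx => by simp [hρ0' 1 x hx]
      map_mul' := fun a b => hx _ _ fun x hx => by
        rw [Module.End.mul_apply, hρ0' b x hx, hρ0' a _ (hUc b x hx), hρ0' _ x hx]
        congr 1; group }
  have hρ : ∀ g, ∀ x ∈ U, ρ g (lam x) = lam (g * x * g⁻¹) := hρ0'
  have hl1 : lam 1 = 0 := by simpa using hadd 1 U.one_mem 1 U.one_mem
  have hlc : ∀ g, ∀ x ∈ U, (ρ g - 1) (lam x) = lam ⁅g, x⁆ := by
    intro g x hx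
    rw [LinearMap.sub_apply, hρ g x hx, Module.End.one_apply, sub_eq_iff_eq_add,
      commutatorElement_def,
      ← hadd _ (U.mul_mem (hUc g x hx) (U.inv_mem hx)) x hx]
    congr 1; group
  have hΦi : ∀ i, ∀ x ∈ U, (Φ ^ i) (lam x) = lam (φ^[i] x) := by
    intro i x hx
    induction i with
    | zero => rfl
    | succ i ih =>
      rw [pow_succ', Module.End.mul_apply, ih, hΦ _ (iterate_mem φ hU i hx),
        Function.iterate_succ_apply']
  have hΦn : Φ ^ n = 1 := hx _ _ fun x hx => by rw [hΦi n x hx, hn]; rfl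
  have hΦ1 : Φ * Φ ^ (n - 1) = 1 := by rw [← pow_succ', Nat.sub_add_cancel hω.pos, hΦn]
  have hΦ2 : Φ ^ (n - 1) * Φ = 1 := by rw [← pow_succ, Nat.sub_add_cancel hω.pos, hΦn]
  let θ : Module.End k V →ₐ[k] Module.End k V :=
    { toFun := fun a => Φ * a * Φ ^ (n - 1)
      map_one' := by rw [mul_one, hΦ1]
      map_mul' := fun a b => by
        calc Φ * (a * b) * Φ ^ (n - 1) = Φ * (a * (Φ ^ (n - 1) * Φ) * b) * Φ ^ (n - 1) := by
              rw [hΦ2, mul_one]
          _ = _ := by noncomm_ring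
      map_zero' := by simp
      map_add' := fun a b => by noncomm_ring
      commutes' := fun r => by rw [← Algebra.commutes, mul_assoc, hΦ1, mul_one] }
  have hθ' : ∀ a, θ a * Φ = Φ * a := fun a => by
    change Φ * a * Φ ^ (n - 1) * Φ = _
    rw [mul_assoc, hΦ2, mul_one]
  have hθ : ∀ g, θ (ρ g) = ρ (φ g) := by
    intro g
    have : Φ * ρ g = ρ (φ g) * Φ := hx _ _ fun x hx => by
      rw [Module.End.mul_apply, Module.End.mul_apply, hρ g x hx, hΦ _ (hUc g x hx), hΦ x hx,
        hρ _ _ (hU x hx)]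
      simp
    change Φ * ρ g * Φ ^ (n - 1) = _
    rw [this, mul_assoc, hΦ1, mul_one]
  obtain ⟨s, hs⟩ := Subgroup.nilpotent_iff_lowerCentralSeries.1 ‹Group.IsNilpotent G›
  have hB : Bs k ρ ^ s = ⊥ := by
    let Vi : ℕ → Submodule k V := fun i =>
      span k (lam '' (U ⊓ (⊤ : Subgroup G).lowerCentralSeries i : Subgroup G))
    have h1 : ∀ i, ∀ f ∈ Bs k ρ, ∀ v ∈ Vi i, f v ∈ Vi (i + 1) := by
      intro i f hf v hv
      have : Bs k ρ ≤ (Vi (i + 1)).comap (LinearMap.applyₗ v) := by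
        refine span_le.2 ?_
        rintro _ ⟨g, rfl⟩
        have : Vi i ≤ (Vi (i + 1)).comap (ρ g - 1) := by
          refine span_le.2 ?_
          rintro _ ⟨x, hx, rfl⟩
          change (ρ g - 1) (lam x) ∈ Vi (i + 1)
          rw [hlc g x hx.1]
          refine subset_span ⟨_, ⟨U.mul_mem (hUc g x hx.1) (U.inv_mem hx.1), ?_⟩, rfl⟩
          rw [Subgroup.lowerCentralSeries_succ, Subgroup.commutator_comm]
          exact Subgroup.commutator_mem_commutator (Subgroup.mem_top g) hx.2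
        exact this hv
      exact this hf
    have h2 : ∀ m, ∀ f ∈ Bs k ρ ^ m, ∀ v, f v ∈ Vi m := by
      intro m
      induction m with
      | zero =>
        intro f _ v
        simp only [Vi, Subgroup.lowerCentralSeries_zero, inf_top_eq, hspan, mem_top]
      | succ m ih =>
        intro f hf
        rw [pow_succ'] at hf
        exact Submodule.mul_induction_on (C := fun f => ∀ v, f v ∈ Vi (m + 1)) hf
          (fun f hf g hg v => h1 m f hf _ (ih g hg v))
          (fun f g hf hg v => add_mem (hf v) (hg v))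
    rw [eq_bot_iff]
    intro f hf
    rw [mem_bot]
    ext v
    have := h2 s f hf v
    simpa [Vi, hs, hl1] using this
  have hT : ∀ s, ∀ x ∈ U, (∑ i ∈ range s, Φ ^ i) (lam x) = lam (nT φ s x) := by
    intro s x hx
    induction s with
    | zero => simp [nT, hl1]
    | succ s ih =>
      rw [sum_range_succ, LinearMap.add_apply, ih, hΦi s x hx, nT,
        hadd _ (nT_mem φ hU s hx) _ (iterate_mem φ hU s hx)]
  have hFg : ∀ d, ∀ x ∈ U, Fg Φ d (lam x) = lam (ev φ d x) := by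
    intro d x hx
    induction d with
    | zero => rfl
    | succ d ih => rw [Fg, Module.End.mul_apply, ih, hT _ _ (ev_mem φ hU d hx), ev]
  have hnil : ∀ v, ∃ r, (Fg Φ (d + 1) ^ r) v = 0 := by
    intro v
    have hv : v ∈ span k (lam '' U) := hspan ▸ mem_top
    induction hv using span_induction with
    | zero => exact ⟨0, map_zero _⟩
    | add a b _ _ ha hb =>
      obtain ⟨r, hr⟩ := ha
      obtain ⟨r', hr'⟩ := hb
      refine ⟨r + r', ?_⟩
      rw [map_add, pow_add, Module.End.mul_apply _ _ b, hr', ← pow_add, add_comm r, pow_add,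
        Module.End.mul_apply, hr]
      simp
    | smul c a _ ha =>
      obtain ⟨r, hr⟩ := ha
      exact ⟨r, by rw [map_smul, hr, smul_zero]⟩
    | mem _ hv =>
      obtain ⟨x, hx, rfl⟩ := hv
      obtain ⟨r, hr⟩ := hQ x
      have : ∀ r, (ev φ (d + 1))^[r] x ∈ U ∧
          (Fg Φ (d + 1) ^ r) (lam x) = lam ((ev φ (d + 1))^[r] x) := by
        intro r
        induction r with
        | zero => exact ⟨hx, rfl⟩
        | succ r ih =>
          rw [Function.iterate_succ_apply', pow_succ', Module.End.mul_apply, ih.2, hFg _ _ ih.1]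
          exact ⟨ev_mem φ hU _ ih.1, rfl⟩
      exact ⟨r, by rw [(this r).2, hr, hl1]⟩
  have hD1 : dG n n n ≤ D := by unfold dM at hD; omega
  have hD2 : dG n (n * 2 ^ (2 * (2 ^ n - 1))) (cG n n n) ≤ D := by unfold dM at hD; omega
  have hD3 : d + 1 ≤ D := by unfold dM at hD; omega
  let S : Set G := {y | (ρ y - 1) ^ cG n n n = 0}
  have hS : ∀ x ∈ S, ∀ g, g * x * g⁻¹ ∈ S := by
    intro x hx g
    have := congrArg (cj k ρ g) hx
    rw [map_pow, map_sub, map_one, map_zero] at this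
    change (ρ (g * x * g⁻¹) - 1) ^ _ = 0
    rw [map_mul, map_mul]
    exact this
  refine ⟨Subgroup.closure S, closure_normal hS, closure_stable φ fun x hx => ?_, fun x => ?_, ?_⟩
  · refine Subgroup.subset_closure ?_
    have := congrArg θ hx
    rwa [map_pow, map_sub, map_one, map_zero, hθ] at this
  · obtain ⟨r, hr⟩ := exists_stable φ d x
    refine ⟨r, Subgroup.subset_closure ?_⟩
    refine step1 hω hν hP hD1 ρ hB φ θ hθ hn h0 (fun j u hu hj => ?_) hr
    refine spec_pow hω (hP.mono hD3) Φ hΦn hnil j u ?_ hj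
    rw [← hθ', hu, smul_mul_assoc]
  · have h1 : dser (Subgroup.closure S) (2 * (2 ^ n - 1)) ≤ ρ.ker := by
      refine (dser_closure_le hS _).trans ((Subgroup.closure_le _).2 fun z hz => ?_)
      obtain ⟨F, h1, h2, h3⟩ := dset_finset S _ z hz
      exact step3 hω hν hP hD2 ρ hB φ θ hθ hn h0 F h1 (fun f hf => h2 hf) h3
    rw [Subgroup.commutator_le]
    intro g hg x hx
    refine hker _ (U.mul_mem (hUc g x hx) (U.inv_mem hx)) ?_
    have := hlc g x hx
    rw [show ρ g = 1 from h1 hg, sub_self, LinearMap.zero_apply] at this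
    exact this.symm

theorem commutator_eq_bot_of_le [Group.IsNilpotent G] (H : Subgroup G) [H.Normal]
    (h : ⁅H, ⁅H, H⁆⁆ ≤ ⁅⁅H, H⁆, ⁅H, H⁆⁆) : ⁅⁅H, H⁆, ⁅H, H⁆⁆ = (⊥ : Subgroup G) := by
  set U := ⁅H, H⁆ with hU
  set N : Subgroup G := ⁅⁅H, U⁆, ⊤⁆ with hN
  have h1 : ⁅U, U⁆ ≤ N := by
    have h2 : ⁅⁅H.map (QuotientGroup.mk' N), U.map (QuotientGroup.mk' N)⁆,
        H.map (QuotientGroup.mk' N)⁆ = ⊥ := by
      rw [← Subgroup.map_commutator, ← Subgroup.map_commutator, Subgroup.map_eq_bot_iff,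
        QuotientGroup.ker_mk']
      exact Subgroup.commutator_mono le_rfl le_top
    have h3 := Subgroup.commutator_commutator_eq_bot_of_rotate h2
      (by rwa [Subgroup.commutator_comm (U.map _)])
    rwa [← Subgroup.map_commutator, ← Subgroup.map_commutator, Subgroup.map_eq_bot_iff,
      QuotientGroup.ker_mk'] at h3
  obtain ⟨s, hs⟩ := Subgroup.nilpotent_iff_lowerCentralSeries.1 ‹Group.IsNilpotent G›
  have h2 : ∀ i, ⁅H, U⁆ ≤ (⊤ : Subgroup G).lowerCentralSeries i := by
    intro i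
    induction i with
    | zero => exact le_top
    | succ i ih => exact (h.trans h1).trans (Subgroup.commutator_mono ih le_rfl)
  have h3 : ⁅H, U⁆ = ⊥ := eq_bot_iff.2 (hs ▸ h2 s)
  rw [eq_bot_iff]
  refine h1.trans ?_
  rw [hN, h3, Subgroup.commutator_bot_left]

section hom

variable {G' : Type} [Group G'] (f : G →* G') {φ : G →* G} {φ' : G' →* G'}

theorem map_iterate' (h : ∀ x, f (φ x) = φ' (f x)) (i : ℕ) (x : G) :
    f (φ^[i] x) = φ'^[i] (f x) := by
  induction i with
  | zero => rfl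
  | succ i ih => rw [Function.iterate_succ_apply', Function.iterate_succ_apply', h, ih]

theorem map_nT (h : ∀ x, f (φ x) = φ' (f x)) (s : ℕ) (x : G) : f (nT φ s x) = nT φ' s (f x) := by
  induction s with
  | zero => exact map_one f
  | succ s ih => rw [nT, nT, map_mul, ih, map_iterate' f h]

theorem map_ev (h : ∀ x, f (φ x) = φ' (f x)) (d : ℕ) (x : G) : f (ev φ d x) = ev φ' d (f x) := by
  induction d with
  | zero => rfl
  | succ d ih => rw [ev, ev, map_nT f h, ih]

end hom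

theorem derived_bot_aux {n E D : ℕ} {ω : kˣ} {ν : ℕ → k} (hω : GoodRoot n ω) (hν : IsLin D ν)
    (hP : UnitsUpTo k D) (hD : dM n ≤ D) (hF : Faith k E) (d : ℕ) (hd : d ≤ n) :
    ∀ (G : Type) [Group G] [Finite G] [Group.IsNilpotent G], (∀ x : G, x ^ E = 1) →
      ∀ φ : G →* G, (∀ x, φ^[n] x = x) → (∀ x, nT φ n x = 1) → (∀ x, ∃ r, (ev φ d)^[r] x = 1) →
      derivedSeries G (d * (2 * (2 ^ n - 1) + 2)) = ⊥ := by
  induction d with
  | zero =>
    intro G _ _ _ _ φ _ _ hQ
    rw [eq_bot_iff]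
    intro x _
    obtain ⟨r, hr⟩ := hQ x
    rwa [show ev φ 0 = id from rfl, Function.iterate_id] at hr
  | succ d ih =>
    intro G _ _ _ hE φ hn h0 hQ
    set a := d * (2 * (2 ^ n - 1) + 2) with ha
    set b := 2 * (2 ^ n - 1) with hb
    obtain ⟨L, _, hL1, hL2, hL3⟩ := exists_layer hω hν hP hD hF hE φ hn h0 hd hQ
      (derivedSeries G (a + b + 1))
      (fun x hx => map_derivedSeries_le_derivedSeries φ _ ⟨x, hx, rfl⟩)
    let φ' : G ⧸ L →* G ⧸ L := QuotientGroup.map L L φ hL1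
    have hφ : ∀ x, QuotientGroup.mk' L (φ x) = φ' (QuotientGroup.mk' L x) := fun x => rfl
    have hs := QuotientGroup.mk'_surjective L
    have h1 := ih (by omega) (G ⧸ L)
      (fun x => by obtain ⟨x, rfl⟩ := hs x; rw [← map_pow, hE, map_one]) φ'
      (fun x => by obtain ⟨x, rfl⟩ := hs x; rw [← map_iterate' _ hφ, hn])
      (fun x => by obtain ⟨x, rfl⟩ := hs x; rw [← map_nT _ hφ, h0, map_one])
      (fun x => by
        obtain ⟨x, rfl⟩ := hs x
        obtain ⟨r, hr⟩ := hL2 x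
        refine ⟨r, ?_⟩
        rw [← Function.Semiconj.iterate_right (map_ev _ hφ d) r x, ← MonoidHom.mem_ker,
          QuotientGroup.ker_mk']
        exact hr)
    rw [← map_derivedSeries_eq hs, Subgroup.map_eq_bot_iff, QuotientGroup.ker_mk'] at h1
    have h2 := dser_mono h1 b
    rw [dser_derived] at h2
    rw [show (d + 1) * (b + 2) = a + b + 1 + 1 by rw [ha]; ring]
    exact commutator_eq_bot_of_le (derivedSeries G (a + b))
      ((Subgroup.commutator_mono h2 le_rfl).trans hL3)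

theorem nT_eq_prod (φ : G →* G) (s : ℕ) (x : G) :
    nT φ s x = ((List.range s).map fun i => φ^[i] x).prod := by
  induction s with
  | zero => rfl
  | succ s ih => rw [nT, ih, List.range_succ]; simp

/-- Group analogue of the theorem of Kreknin away from small primes. -/
theorem kreknin_group {n : ℕ} (hn : 0 < n) : ∃ P : ℕ, ∀ (G : Type) [Group G] [Finite G]
    [Group.IsNilpotent G], (∀ p, p.Prime → p ∣ Nat.card G → P < p) → ∀ φ : G →* G,
      φ^[n] = id → MonoidHom.FixedPointFree φ → derivedSeries G (n * 2 ^ (n + 1)) = ⊥ := by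
  refine ⟨dM n, fun G _ _ _ hp φ h1 h2 => ?_⟩
  obtain ⟨k, _, ω, hω, hP, hF⟩ := exists_base hn (show n ≤ dM n by unfold dM; omega) hp
  obtain ⟨ν, hν⟩ := exists_isLin hP
  have h0 : ∀ x, nT φ n x = 1 := fun x => by rw [nT_eq_prod]; exact h2.prod_pow_eq_one h1 x
  have := derived_bot_aux hω hν hP le_rfl hF n le_rfl G (fun _ => pow_card_eq_one') φ
    (fun x => congrFun h1 x) h0 (fun x => ⟨1, by
      obtain ⟨m, rfl⟩ := Nat.exists_eq_add_of_le' hn
      exact h0 _⟩)
  have e : 2 * (2 ^ n - 1) + 2 = 2 ^ (n + 1) := by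
    have : 1 ≤ 2 ^ n := Nat.one_le_two_pow
    rw [pow_succ]; omega
  rwa [e] at this

end Pool.Agent.P.MP_618680_al
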