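import Pool.Agent.P.MP_618680_al.Main

/-! Application to locally finite groups with a locally nilpotent subgroup of finite index. -/

set_option autoImplicit false

namespace Pool.Agent.P.MP_618680_al

open scoped commutatorElement

variable {G : Type} [Group G]

theorem prime_dvd_orderOf_mul {H : Type} [Group H] [Finite H] [Group.IsNilpotent H] {q : ℕ}
    (hq : q.Prime) (x y : H) (h : q ∣ orderOf (x * y)) : q ∣ orderOf x ∨ q ∣ orderOf y := by
  classical
  obtain ⟨e⟩ : Nonempty ((∀ p : (Nat.card H).primeFactors, ∀ P : Sylow p H, (P : Subgroup H)) ≃* H) :=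
    (Group.isNilpotent_of_finite_tfae.out 0 4 rfl rfl).1 ‹Group.IsNilpotent H›
  obtain ⟨a, rfl⟩ := e.surjective x
  obtain ⟨b, rfl⟩ := e.surjective y
  rw [← map_mul, e.orderOf_eq, Pi.orderOf] at h
  obtain ⟨p, -, h⟩ := hq.prime.exists_mem_finset_dvd (h.trans (Finset.lcm_dvd_prod _ _))
  have : Fintype (Sylow p H) := Fintype.ofFinite _
  rw [Pi.orderOf] at h
  obtain ⟨P, -, h⟩ := hq.prime.exists_mem_finset_dvd (h.trans (Finset.lcm_dvd_prod _ _))
  have hp : Fact (p : ℕ).Prime := ⟨Nat.prime_of_mem_primeFactors p.2⟩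
  have key : ∀ z : (P : Subgroup H), q ∣ orderOf z ↔ q = p ∧ z ≠ 1 := by
    intro z
    obtain ⟨i, hi⟩ := IsPGroup.iff_orderOf.1 P.isPGroup' z
    constructor
    · intro h
      refine ⟨(Nat.prime_dvd_prime_iff_eq hq hp.out).1 (hq.dvd_of_dvd_pow (hi ▸ h)), ?_⟩
      rintro rfl
      rw [orderOf_one] at h
      exact hq.one_lt.ne' (Nat.dvd_one.1 h)
    · rintro ⟨h1, h2⟩
      rw [hi, h1]
      refine dvd_pow_self _ ?_
      rintro rfl
      exact h2 (orderOf_eq_one_iff.1 hi)
  obtain ⟨h1, h2⟩ := (key _).1 h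
  rw [e.orderOf_eq, e.orderOf_eq]
  by_cases ha : a p P = 1
  · have hb : b p P ≠ 1 := fun hb => h2 (by simp [ha, hb])
    exact Or.inr (((key _).2 ⟨h1, hb⟩).trans
      ((orderOf_apply_dvd_orderOf P).trans (orderOf_apply_dvd_orderOf p)))
  · exact Or.inl (((key _).2 ⟨h1, ha⟩).trans
      ((orderOf_apply_dvd_orderOf P).trans (orderOf_apply_dvd_orderOf p)))

/-- Finitely generated subgroups of `N` are finite and nilpotent. -/
def LocFN (N : Subgroup G) : Prop := ∀ s : Finset G, (s : Set G) ⊆ N →
  Finite (Subgroup.closure (s : Set G)) ∧ Group.IsNilpotent (Subgroup.closure (s : Set G))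

/-- The elements of `N` whose order involves only primes satisfying `σ`. -/
def part (N : Subgroup G) (hN : LocFN N) (σ : ℕ → Prop) : Subgroup G where
  carrier := {x | x ∈ N ∧ ∀ q, q.Prime → q ∣ orderOf x → σ q}
  one_mem' := ⟨N.one_mem, fun q hq h => by
    rw [orderOf_one] at h
    exact absurd (Nat.dvd_one.1 h) hq.one_lt.ne'⟩
  inv_mem' := fun hx => ⟨N.inv_mem hx.1, by simpa using hx.2⟩
  mul_mem' := fun {x y} hx hy => ⟨N.mul_mem hx.1 hy.1, fun q hq h => by
    classical
    obtain ⟨_, _⟩ := hN {x, y} (by simp [Set.insert_subset_iff, hx.1, hy.1])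
    have := prime_dvd_orderOf_mul hq
      (⟨x, Subgroup.subset_closure (by simp)⟩ : Subgroup.closure (({x, y} : Finset G) : Set G))
      ⟨y, Subgroup.subset_closure (by simp)⟩ (by rw [← Subgroup.orderOf_coe]; exact h)
    simp only [← Subgroup.orderOf_coe] at this
    exact this.elim (hx.2 q hq) (hy.2 q hq)⟩

theorem part_normal (N : Subgroup G) [N.Normal] (hN : LocFN N) (σ : ℕ → Prop) :
    (part N hN σ).Normal :=
  ⟨fun x hx g => ⟨Subgroup.Normal.conj_mem ‹_› x hx.1 g, fun q hq h => hx.2 q hq (by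
    rwa [← MulAut.conj_apply, MulEquiv.orderOf_eq] at h)⟩⟩

theorem orderOf_pos_of {N : Subgroup G} (hN : LocFN N) {x : G} (hx : x ∈ N) : 0 < orderOf x := by
  obtain ⟨_, _⟩ := hN {x} (by simpa using hx)
  have := orderOf_pos
    (⟨x, Subgroup.subset_closure (by simp)⟩ : Subgroup.closure (({x} : Finset G) : Set G))
  rwa [← Subgroup.orderOf_coe] at this

theorem eq_one_of_no_prime {x : G} (h : ∀ q, q.Prime → ¬ q ∣ orderOf x) : x = 1 := by
  rw [← orderOf_eq_one_iff]
  exact Nat.eq_one_iff_not_exists_prime_dvd.2 h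

/-- Almost soluble. -/
def AS (K : Type) [Group K] : Prop := ∃ S : Subgroup K, S.FiniteIndex ∧ Group.IsSolvable S

theorem AS.of_surjective {K K' : Type} [Group K] [Group K'] (f : K →* K')
    (hf : Function.Surjective f) (h : AS K) : AS K' := by
  obtain ⟨S, h1, h2⟩ := h
  refine ⟨S.map f, ⟨fun h0 => h1.index_ne_zero ?_⟩,
    Group.isSolvable_of_surjective (f.subgroupMap_surjective S)⟩
  exact Nat.eq_zero_of_zero_dvd (h0 ▸ S.index_map_dvd hf)

theorem AS.prod {K K' : Type} [Group K] [Group K'] (h : AS K) (h' : AS K') : AS (K × K') := by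
  obtain ⟨S, h1, h2⟩ := h
  obtain ⟨S', h1', h2'⟩ := h'
  exact ⟨S.prod S', ⟨by
      rw [Subgroup.index_prod]; exact mul_ne_zero h1.index_ne_zero h1'.index_ne_zero⟩,
    Group.isSolvable_of_surjective (f := (S.prodEquiv S').symm.toMonoidHom)
      (S.prodEquiv S').symm.surjective⟩

theorem AS.of_finiteIndex (H : Subgroup G) [H.FiniteIndex] (h : AS H) : AS G := by
  obtain ⟨S, h1, h2⟩ := h
  refine ⟨S.map H.subtype, ⟨?_⟩,
    Group.isSolvable_of_surjective (H.subtype.subgroupMap_surjective S)⟩
  rw [Subgroup.index_map_subtype]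
  exact mul_ne_zero h1.index_ne_zero Subgroup.FiniteIndex.index_ne_zero

theorem AS.of_solvable (K : Type) [Group K] [Group.IsSolvable K] : AS K :=
  ⟨⊤, inferInstance, inferInstance⟩

theorem AS.sup {A B : Subgroup G} [A.Normal] [B.Normal] (hd : Disjoint A B) (hA : AS A)
    (hB : AS B) : AS (A ⊔ B : Subgroup G) := by
  let f := A.subtype.noncommCoprod B.subtype fun a b =>
    Subgroup.commute_of_normal_of_disjoint A B ‹_› ‹_› hd a b a.2 b.2
  have : f.range = A ⊔ B := by simp [f, MonoidHom.noncommCoprod_range]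
  rw [← this]
  exact (hA.prod hB).of_surjective f.rangeRestrict f.rangeRestrict_surjective

theorem solvable_of_fpf {n P : ℕ} (hn : 0 < n) {D : ℕ}
    (hA : ∀ (G : Type) [Group G] [Finite G] [Group.IsNilpotent G],
      (∀ p, p.Prime → p ∣ Nat.card G → P < p) → ∀ φ : G →* G,
      φ^[n] = id → MonoidHom.FixedPointFree φ → derivedSeries G D = ⊥)
    {g : G} (hg : g ^ n = 1) (K : Subgroup G) [K.Normal] (hK : LocFN K)
    (hP : ∀ x ∈ K, ∀ q, q.Prime → q ∣ orderOf x → P < q) (hC : ∀ x ∈ K, x * g = g * x → x = 1) :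
    Group.IsSolvable K := by
  classical
  have hc : ∀ x ∈ (K : Set G), ∀ a, a * x * a⁻¹ ∈ (K : Set G) := fun x hx a =>
    Subgroup.Normal.conj_mem ‹_› x hx a
  let φ : G →* G := (MulAut.conj g).toMonoidHom
  have hφ : ∀ i x, φ^[i] x = g ^ i * x * (g ^ i)⁻¹ := by
    intro i x
    induction i with
    | zero => simp
    | succ i ih =>
      rw [Function.iterate_succ_apply', ih, pow_succ']
      simp [φ, mul_assoc]
  have h1 : dser K D = ⊥ := by
    have h2 := dser_closure_le hc D
    rw [Subgroup.closure_eq] at h2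
    rw [eq_bot_iff]
    refine h2.trans ((Subgroup.closure_le _).2 fun z hz => ?_)
    obtain ⟨F, -, h3, h4⟩ := dset_finset _ _ z hz
    let F' : Finset G := (Finset.range n ×ˢ F).image fun p => φ^[p.1] p.2
    have hF' : (F' : Set G) ⊆ K := by
      intro x hx
      obtain ⟨⟨i, f⟩, hp, rfl⟩ := Finset.mem_image.1 hx
      rw [hφ]
      exact hc _ (h3 (Finset.mem_product.1 hp).2) _
    have hFF : (F : Set G) ⊆ F' := fun f hf =>
      Finset.mem_image.2 ⟨(0, f), Finset.mem_product.2 ⟨Finset.mem_range.2 hn, hf⟩, rfl⟩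
    obtain ⟨_, _⟩ := hK F' hF'
    set H := Subgroup.closure (F' : Set G) with hH
    have hHK : H ≤ K := (Subgroup.closure_le _).2 hF'
    have hHs : ∀ x ∈ H, φ x ∈ H := by
      refine closure_stable φ fun x hx => Subgroup.subset_closure ?_
      obtain ⟨⟨i, f⟩, hp, rfl⟩ := Finset.mem_image.1 hx
      obtain ⟨hi, hf⟩ := Finset.mem_product.1 hp
      have hi' := Finset.mem_range.1 hi
      by_cases h : i + 1 < n
      · exact Finset.mem_image.2 ⟨(i + 1, f), Finset.mem_product.2 ⟨Finset.mem_range.2 h, hf⟩,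
          Function.iterate_succ_apply' _ _ _⟩
      · refine hFF ?_
        rw [← Function.iterate_succ_apply' φ, Nat.succ_eq_add_one,
          show i + 1 = n by simp at hi'; omega, hφ, hg]
        simpa using hf
    have h5 := hA H (fun p hp h => by
        have := Fact.mk hp
        obtain ⟨x, hx⟩ := exists_prime_orderOf_dvd_card' p h
        exact hP x (hHK x.2) p hp (by rw [Subgroup.orderOf_coe, hx])) (res φ H hHs)
      (funext fun x => Subtype.ext (by rw [res_iterate, hφ, hg]; simp))
      (fun x hx => Subtype.ext (hC x (hHK x.2) (by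
        have : g * x * g⁻¹ = x := congrArg Subtype.val hx
        rw [mul_inv_eq_iff_eq_mul] at this
        exact this.symm)))
    have h6 := dser_mono (Subgroup.closure_mono hFF) D h4
    rw [dser_eq_map, h5, Subgroup.map_bot] at h6
    exact h6
  rw [dser_eq_map, Subgroup.map_eq_bot_iff_of_injective _ K.subtype_injective] at h1
  exact ⟨D, h1⟩

theorem hartley_locNil {n : ℕ} (hn : 0 < n) : ∃ P : ℕ, ∀ (G : Type) [Group G],
    (∀ s : Finset G, Finite (Subgroup.closure (s : Set G))) → ∀ g : G, g ^ n = 1 →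
    WellFoundedLT (Subgroup (Subgroup.centralizer ({g} : Set G))) →
    (∃ N : Subgroup G, N.FiniteIndex ∧ ∀ s : Finset G, (s : Set G) ⊆ N →
      Group.IsNilpotent (Subgroup.closure (s : Set G))) →
    (∀ p : ℕ, p.Prime → (p ≤ P ∨ ∃ c : G, c * g = g * c ∧ orderOf c = p) →
      ∀ Q : Subgroup G, IsPGroup p Q → AS Q) → AS G := by
  obtain ⟨P, hA⟩ := kreknin_group hn
  refine ⟨P, fun G _ hG g hg hC ⟨N0, _, hN0⟩ hp => ?_⟩
  set N := N0.normalCore with hNdef
  have hN : LocFN N := fun s hs => ⟨hG s, hN0 s (hs.trans N0.normalCore_le)⟩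
  have hsub : ∀ σ, LocFN (part N hN σ) := fun σ s hs => hN s fun x hx => (hs hx).1
  let T : ℕ → Subgroup G := fun j => part N hN fun q => j < q
  have hT : ∀ j, (T j).Normal := fun j => part_normal N hN _
  obtain ⟨_, ⟨j0, rfl⟩, hj0⟩ := hC.wf.has_min
    (Set.range fun j => (T j).subgroupOf (Subgroup.centralizer ({g} : Set G))) ⟨_, 0, rfl⟩
  have h1 : ∀ x ∈ T (j0 + P), x * g = g * x → x = 1 := by
    intro x hx h
    have h2 : (T (j0 + orderOf x)).subgroupOf (Subgroup.centralizer ({g} : Set G)) ≤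
        (T j0).subgroupOf _ := fun y hy => ⟨hy.1, fun q hq h => by
      have := hy.2 q hq h
      omega⟩
    have h3 := (eq_of_le_of_not_lt h2 (hj0 _ ⟨_, rfl⟩)).ge
      (show (⟨x, Subgroup.mem_centralizer_singleton_iff.2 h⟩ :
        Subgroup.centralizer ({g} : Set G)) ∈ (T j0).subgroupOf _ from
        ⟨hx.1, fun q hq h => by have := hx.2 q hq h; omega⟩)
    refine eq_one_of_no_prime fun q hq h => ?_
    have h4 := h3.2 q hq h
    have h5 := Nat.le_of_dvd (orderOf_pos_of hN hx.1) h
    omega
  have h2 : ∀ j, AS (T (j + 1)) → AS (T j) := by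
    intro j hj
    by_cases hq : (j + 1).Prime
    · have := Fact.mk hq
      let Q := part N hN fun q => q = j + 1
      have := part_normal N hN fun q => q = j + 1
      have hQ : AS Q := by
        by_cases h : j + 1 ≤ P ∨ ∃ c : G, c * g = g * c ∧ orderOf c = j + 1
        · refine hp _ hq h Q (IsPGroup.iff_orderOf.2 fun x => ?_)
          rw [← Subgroup.orderOf_coe]
          exact ⟨_, Nat.eq_prime_pow_of_unique_prime_dvd (orderOf_pos_of hN x.2.1).ne'
            fun {q} hq h => x.2.2 q hq h⟩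
        · push Not at h
          have := solvable_of_fpf hn hA hg Q (hsub _)
            (fun x hx q hq h' => by rw [hx.2 q hq h']; exact h.1) (fun x hx hc => by
              refine eq_one_of_no_prime fun q hq h' => ?_
              have h3 := hx.2 q hq h'
              subst h3
              refine h.2 _ ?_ (orderOf_pow_orderOf_div (orderOf_pos_of hN hx.1).ne' h')
              exact (Commute.pow_left hc _).eq)
          exact AS.of_solvable Q
      have e : T j = Q ⊔ T (j + 1) := by
        apply le_antisymm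
        · intro x hx
          have hx0 := (orderOf_pos_of hN hx.1).ne'
          obtain ⟨a, m, hm, e⟩ := Nat.exists_eq_pow_mul_and_not_dvd hx0 _ hq.one_lt.ne'
          have hm0 : m ≠ 0 := by rintro rfl; simp at hm
          have hc : Nat.Coprime m ((j + 1) ^ a) :=
            ((Nat.Prime.coprime_iff_not_dvd hq).2 hm).symm.pow_right a
          have h3 : x ^ m ∈ Q := ⟨N.pow_mem hx.1 _, fun q hq' h => by
            rw [orderOf_pow_of_dvd hm0 (e ▸ dvd_mul_left _ _), e,
              Nat.mul_div_cancel _ (Nat.pos_of_ne_zero hm0)] at h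
            exact (Nat.prime_dvd_prime_iff_eq hq' hq).1 (hq'.dvd_of_dvd_pow h)⟩
          have h4 : x ^ (j + 1) ^ a ∈ T (j + 1) := ⟨N.pow_mem hx.1 _, fun q hq' h => by
            rw [orderOf_pow_of_dvd (by positivity) (e ▸ dvd_mul_right _ _), e,
              Nat.mul_div_cancel_left _ (by positivity)] at h
            have h5 := hx.2 q hq' (e ▸ h.mul_left _)
            have h6 : q ≠ j + 1 := by rintro rfl; exact hm h
            omega⟩
          obtain ⟨u, v, huv⟩ := Nat.isCoprime_iff_coprime.2 hc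
          have h5 : x = (x ^ m) ^ u * (x ^ (j + 1) ^ a) ^ v := by
            rw [← zpow_natCast, ← zpow_natCast, ← zpow_mul, ← zpow_mul, ← zpow_add, mul_comm,
              mul_comm _ v, huv, zpow_one]
          rw [h5]
          exact Subgroup.mul_mem_sup (Q.zpow_mem h3 _) ((T (j + 1)).zpow_mem h4 _)
        · exact sup_le (fun x hx => ⟨hx.1, fun q hq h => by rw [hx.2 q hq h]; omega⟩)
            (fun x hx => ⟨hx.1, fun q hq h => by have := hx.2 q hq h; omega⟩)
      rw [e]
      refine AS.sup (Subgroup.disjoint_def.2 fun {x} hx hx' => eq_one_of_no_prime fun q hq h => ?_)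
        hQ hj
      have h3 := hx.2 q hq h
      have h4 := hx'.2 q hq h
      omega
    · have e : T j = T (j + 1) := by
        ext x
        refine and_congr_right fun _ => forall₂_congr fun q hq' => imp_congr_right fun _ => ?_
        have : q ≠ j + 1 := by rintro rfl; exact hq hq'
        omega
      rwa [e]
  have h3 : ∀ j, AS (T j) → AS (T 0) := by
    intro j
    induction j with
    | zero => exact id
    | succ j ih => exact fun h => ih (h2 j h)
  have h4 := solvable_of_fpf hn hA hg (T (j0 + P)) (hsub _)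
    (fun x hx q hq h => by have := hx.2 q hq h; omega) h1
  have h5 := h3 _ (AS.of_solvable (T (j0 + P)))
  have e : T 0 = N := le_antisymm (fun x hx => hx.1) fun x hx => ⟨hx, fun q hq _ => hq.pos⟩
  rw [e] at h5
  exact h5.of_finiteIndex N

end Pool.Agent.P.MP_618680_al
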