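import Pool.Agent.P.MP_618680_al.Basic

/-! Eigenprojections and the theorem of Kreknin for Lie rings of commutators. -/

set_option autoImplicit false

namespace Pool.Agent.P.MP_618680_al

open Submodule Finset

variable {k : Type} [CommRing k]

/-- A root of unity of order `n` in the strong sense. -/
structure GoodRoot (n : ℕ) (ω : kˣ) : Prop where
  pos : 0 < n
  pow : ω ^ n = 1
  unit : ∀ i : ℕ, ¬ n ∣ i → IsUnit ((ω : k) ^ i - 1)
  nunit : IsUnit (n : k)

section proj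

variable {M : Type} [AddCommGroup M] [Module k M]

/-- Eigenprojection. -/
noncomputable def eP (n : ℕ) (θ : Module.End k M) (ζ : kˣ) : Module.End k M :=
  Ring.inverse (n : k) • ∑ s ∈ range n, ((ζ⁻¹ : kˣ) : k) ^ s • θ ^ s

theorem eP_apply (n : ℕ) (θ : Module.End k M) (ζ : kˣ) (a : M) :
    eP n θ ζ a = Ring.inverse (n : k) • ∑ s ∈ range n, ((ζ⁻¹ : kˣ) : k) ^ s • (θ ^ s) a := by
  simp [eP, LinearMap.sum_apply]

theorem pow_apply_eigen {θ : Module.End k M} {z : k} {a : M} (h : θ a = z • a) (s : ℕ) :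
    (θ ^ s) a = z ^ s • a := by
  induction s with
  | zero => simp
  | succ s ih => rw [pow_succ', Module.End.mul_apply, ih, map_smul, h, smul_smul, pow_succ]

theorem eP_of_eigen {n : ℕ} (hn : IsUnit (n : k)) {θ : Module.End k M} {ζ : kˣ} {a : M}
    (h : θ a = (ζ : k) • a) : eP n θ ζ a = a := by
  rw [eP_apply]
  have : ∀ s ∈ range n, ((ζ⁻¹ : kˣ) : k) ^ s • (θ ^ s) a = a := by
    intro s _
    rw [pow_apply_eigen h, smul_smul, ← mul_pow]; simp
  rw [sum_congr rfl this, sum_const, card_range, ← Nat.cast_smul_eq_nsmul k, smul_smul,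
    Ring.inverse_mul_cancel _ hn, one_smul]

theorem eP_comm (n : ℕ) (θ : Module.End k M) (ζ : kˣ) (a : M) :
    eP n θ ζ (θ a) = θ (eP n θ ζ a) := by
  simp only [eP_apply, map_smul, map_sum]
  congr 1
  refine sum_congr rfl fun s _ => ?_
  rw [← Module.End.mul_apply, ← Module.End.mul_apply θ, ← pow_succ, ← pow_succ']

theorem eP_eigen {n : ℕ} {θ : Module.End k M} {ζ : kˣ} (hζ : ζ ^ n = 1) {a : M}
    (ha : (θ ^ n) a = a) : θ (eP n θ ζ a) = (ζ : k) • eP n θ ζ a := by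
  rw [eP_apply, map_smul, smul_comm (ζ : k)]
  congr 1
  set f : ℕ → M := fun s => ((ζ⁻¹ : kˣ) : k) ^ s • (θ ^ s) a with hf
  have h1 : θ (∑ s ∈ range n, f s) = (ζ : k) • ∑ s ∈ range n, f (s + 1) := by
    rw [map_sum, smul_sum]
    refine sum_congr rfl fun s _ => ?_
    simp only [hf]
    rw [map_smul, ← Module.End.mul_apply θ, ← pow_succ', smul_smul, pow_succ' ((ζ⁻¹ : kˣ) : k),
      ← mul_assoc]
    simp
  have h2 : f n = f 0 := by
    simp only [hf]
    rw [ha, ← Units.val_pow_eq_pow_val, inv_pow, hζ]; simp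
  have h3 : ∑ s ∈ range n, f (s + 1) = ∑ s ∈ range n, f s := by
    have := sum_range_succ' f n
    rw [sum_range_succ, h2] at this
    exact (add_right_cancel this).symm
  rw [h1, h3]

theorem pow_mem_of_stable {θ : Module.End k M} {K : Submodule k M} (hK : ∀ a ∈ K, θ a ∈ K)
    {a : M} (ha : a ∈ K) (s : ℕ) : (θ ^ s) a ∈ K := by
  induction s with
  | zero => simpa
  | succ s ih => rw [pow_succ', Module.End.mul_apply]; exact hK _ ih

theorem eP_mem (n : ℕ) {θ : Module.End k M} (ζ : kˣ) {K : Submodule k M} (hK : ∀ a ∈ K, θ a ∈ K)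
    {a : M} (ha : a ∈ K) : eP n θ ζ a ∈ K := by
  rw [eP_apply]
  exact K.smul_mem _ (K.sum_mem fun s _ => K.smul_mem _ (pow_mem_of_stable hK ha s))

theorem eP_one (n : ℕ) (θ : Module.End k M) {a : M} (h : ∑ s ∈ range n, (θ ^ s) a = 0) :
    eP n θ 1 a = 0 := by
  simp [eP_apply, h]

theorem GoodRoot.geom {n : ℕ} {ω : kˣ} (hω : GoodRoot n ω) {j s : ℕ} (hj : ¬ n ∣ j)
    (hs : n ∣ j * s) : ∑ i ∈ range s, ((ω : k) ^ j) ^ i = 0 := by
  have h := mul_geom_sum ((ω : k) ^ j) s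
  obtain ⟨c, hc⟩ := hs
  rw [← pow_mul, hc, pow_mul, ← Units.val_pow_eq_pow_val ω n, hω.pow] at h
  simp only [Units.val_one, one_pow, sub_self] at h
  exact (hω.unit j hj).mul_right_eq_zero.1 h

theorem GoodRoot.pow_pow {n : ℕ} {ω : kˣ} (hω : GoodRoot n ω) (j : ℕ) : (ω ^ j) ^ n = 1 := by
  rw [← pow_mul, mul_comm, pow_mul, hω.pow, one_pow]

theorem sum_eP {n : ℕ} {ω : kˣ} (hω : GoodRoot n ω) (θ : Module.End k M) (a : M) :
    ∑ j ∈ range n, eP n θ (ω ^ j) a = a := by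
  simp only [eP_apply]
  rw [← smul_sum, sum_comm]
  have h : ∀ s ∈ range n, ∑ j ∈ range n, (((ω ^ j)⁻¹ : kˣ) : k) ^ s • (θ ^ s) a =
      if s = 0 then (n : k) • a else 0 := by
    intro s hs
    rw [← sum_smul]
    split_ifs with h0
    · subst h0; simp
    · have hs' := mem_range.1 hs
      have e : ∀ j ∈ range n, (((ω ^ j)⁻¹ : kˣ) : k) ^ s = ((ω : k) ^ (n - s)) ^ j := by
        intro j _
        rw [← Units.val_pow_eq_pow_val, ← Units.val_pow_eq_pow_val, ← Units.val_pow_eq_pow_val]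
        congr 1
        rw [inv_pow, inv_eq_iff_mul_eq_one, ← pow_mul, ← pow_mul, ← pow_add,
          show j * s + (n - s) * j = j * n by
            rw [mul_comm (n - s), ← mul_add]; congr 1; omega, pow_mul, hω.pow_pow]
      rw [sum_congr rfl e, hω.geom (fun hd => ?_) (dvd_mul_left _ _), zero_smul]
      have := Nat.le_of_dvd (by omega) hd
      omega
  rw [sum_congr rfl h, sum_ite_eq', if_pos (mem_range.2 hω.pos), smul_smul,
    Ring.inverse_mul_cancel _ hω.nunit, one_smul]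

end proj

variable {A : Type} [Ring A] [Algebra k A]

theorem algHom_pow_mul (θ : A →ₐ[k] A) (s : ℕ) (a b : A) :
    (θ.toLinearMap ^ s) (a * b) = (θ.toLinearMap ^ s) a * (θ.toLinearMap ^ s) b := by
  induction s with
  | zero => simp
  | succ s ih => simp only [pow_succ', Module.End.mul_apply, ih, AlgHom.toLinearMap_apply, map_mul]

theorem eP_br (n : ℕ) (θ : A →ₐ[k] A) (ζ η : kˣ) (w : A) {y : A} (hy : θ y = (η : k) • y) :
    eP n θ.toLinearMap ζ (w * y - y * w) =
      eP n θ.toLinearMap (ζ * η⁻¹) w * y - y * eP n θ.toLinearMap (ζ * η⁻¹) w := by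
  have hy' : θ.toLinearMap y = (η : k) • y := hy
  simp only [eP_apply, map_sub, algHom_pow_mul, pow_apply_eigen hy', smul_mul_assoc, mul_smul_comm,
    sum_mul, mul_sum, ← smul_sub, ← sum_sub_distrib, smul_smul]
  congr 1
  refine sum_congr rfl fun s _ => ?_
  congr 1
  rw [← mul_pow]; simp [mul_comm]

/-- The Lie closure. -/
def lieGen (k : Type) [CommRing k] {A : Type} [Ring A] [Algebra k A] (s : Set A) :
    Submodule k A := sInf {H | s ⊆ H ∧ der H ≤ H}

theorem subset_lieGen {s : Set A} {a : A} (ha : a ∈ s) : a ∈ lieGen k s :=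
  mem_sInf.2 fun _ hH => hH.1 ha

theorem lieGen_le {s : Set A} {H : Submodule k A} (h1 : s ⊆ H) (h2 : der H ≤ H) :
    lieGen k s ≤ H := sInf_le ⟨h1, h2⟩

theorem der_lieGen (s : Set A) : der (lieGen k s) ≤ lieGen k s :=
  le_sInf fun _ hH => (der_mono (lieGen_le hH.1 hH.2)).trans hH.2

theorem der_lieGen_le {s : Set A} {K S : Submodule k A} (h1 : s ⊆ K) (h2 : der K ≤ K)
    (hS : ∀ w ∈ K, ∀ y ∈ s, w * y - y * w ∈ S) : der (lieGen k s) ≤ S := by
  let C : Submodule k A := K ⊓ ⨅ a : K, S.comap (adL k A a)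
  have hC : ∀ b, b ∈ C ↔ b ∈ K ∧ ∀ a ∈ K, a * b - b * a ∈ S := by
    intro b
    simp [C, mem_iInf, adL_apply]
  have : lieGen k s ≤ C := by
    refine lieGen_le (fun y hy => (hC y).2 ⟨h1 hy, fun a ha => hS a ha y hy⟩)
      (der_le fun b hb c hc => ?_)
    obtain ⟨hb1, hb2⟩ := (hC b).1 hb
    obtain ⟨hc1, hc2⟩ := (hC c).1 hc
    refine (hC _).2 ⟨h2 (br_mem_der hb1 hc1), fun a ha => ?_⟩
    have e : a * (b * c - c * b) - (b * c - c * b) * a =
        ((a * b - b * a) * c - c * (a * b - b * a)) - ((a * c - c * a) * b - b * (a * c - c * a)) := by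
      noncomm_ring
    rw [e]
    exact sub_mem (hc2 _ (h2 (br_mem_der ha hb1))) (hb2 _ (h2 (br_mem_der ha hc1)))
  exact der_le fun a ha b hb => ((hC b).1 (this hb)).2 a ((hC a).1 (this ha)).1

/-- Homogeneous elements of degree above `r`. -/
def gens (n : ℕ) (ω : kˣ) (θ : A →ₐ[k] A) (r : ℕ) (K : Submodule k A) : Set A :=
  {a | a ∈ K ∧ ∃ j, r < j ∧ j < n ∧ θ a = ((ω ^ j : kˣ) : k) • a}

theorem kreknin_aux {n : ℕ} {ω : kˣ} (hω : GoodRoot n ω) (θ : A →ₐ[k] A) (r : ℕ) :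
    ∀ K : Submodule k A, der K ≤ K → (∀ a ∈ K, θ a ∈ K) → (∀ a ∈ K, (θ.toLinearMap ^ n) a = a) →
      (∀ a ∈ K, ∑ s ∈ range n, (θ.toLinearMap ^ s) a = 0) →
      der^[2 ^ r - 1] K ≤ lieGen k (gens n ω θ r K) := by
  induction r with
  | zero =>
    intro K _ hθ hn h0 a ha
    rw [← sum_eP hω θ.toLinearMap a]
    refine sum_mem fun j hj => ?_
    rcases Nat.eq_zero_or_pos j with rfl | hj0
    · rw [pow_zero, eP_one n _ (h0 a ha)]; exact zero_mem _
    · exact subset_lieGen ⟨eP_mem n _ hθ ha, j, hj0, mem_range.1 hj,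
        eP_eigen (θ := θ.toLinearMap) (hω.pow_pow j) (hn a ha)⟩
  | succ r ih =>
    intro K hK hθ hn h0
    set f := 2 ^ r - 1 with hf
    have e : 2 ^ (r + 1) - 1 = f + (f + 1) := by
      have : 1 ≤ 2 ^ r := Nat.one_le_two_pow
      rw [pow_succ]; omega
    set M := der^[f + 1] K with hM
    have hMK : M ≤ K := der_iter_le hK _
    have hMM : der M ≤ M := by
      rw [hM, ← Function.iterate_succ_apply' der, Function.iterate_succ_apply der (f + 1)]
      exact der_iter_mono hK _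
    rw [e, Function.iterate_add_apply]
    refine (ih M hMM (der_iter_stable θ.toLinearMap (by simp) hθ _) (fun a ha => hn a (hMK ha))
      (fun a ha => h0 a (hMK ha))).trans (lieGen_le ?_ (der_lieGen _))
    rintro a ⟨ha, j, hj1, hj2, hj⟩
    rcases (show r + 1 < j ∨ j = r + 1 by omega) with h | rfl
    · exact subset_lieGen ⟨hMK ha, j, h, hj2, hj⟩
    · have h1 : M ≤ (lieGen k (gens n ω θ (r + 1) K)).comap (eP n θ.toLinearMap (ω ^ (r + 1))) := by
        rw [hM, Function.iterate_succ_apply']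
        refine (der_mono (ih K hK hθ hn h0)).trans (der_lieGen_le (fun y hy => hy.1) hK ?_)
        rintro w hw y ⟨hy, i, hi1, hi2, hi⟩
        rw [mem_comap, eP_br n θ _ _ w hi]
        rcases (show r + 1 < i ∨ i = r + 1 by omega) with h | rfl
        · have e2 : ω ^ (r + 1) * (ω ^ i)⁻¹ = ω ^ (n + (r + 1) - i) := by
            rw [mul_inv_eq_iff_eq_mul, ← pow_add, Nat.sub_add_cancel (by omega), pow_add ω n, hω.pow,
              one_mul]
          rw [e2]
          exact der_lieGen _ (br_mem_der (subset_lieGen ⟨eP_mem n _ hθ hw, _, by omega, by omega,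
            eP_eigen (θ := θ.toLinearMap) (hω.pow_pow _) (hn w hw)⟩)
            (subset_lieGen ⟨hy, i, h, hi2, hi⟩))
        · rw [mul_inv_cancel, eP_one n _ (h0 w hw)]; simp
      have h2 := h1 ha
      rwa [mem_comap, eP_of_eigen hω.nunit (θ := θ.toLinearMap) hj] at h2

theorem kreknin {n : ℕ} {ω : kˣ} (hω : GoodRoot n ω) (θ : A →ₐ[k] A) (K : Submodule k A)
    (hK : der K ≤ K) (hθ : ∀ a ∈ K, θ a ∈ K) (hn : ∀ a ∈ K, (θ.toLinearMap ^ n) a = a)
    (h0 : ∀ a ∈ K, ∑ s ∈ range n, (θ.toLinearMap ^ s) a = 0) : der^[2 ^ n - 1] K = ⊥ := by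
  rw [eq_bot_iff]
  refine (kreknin_aux hω θ n K hK hθ hn h0).trans (lieGen_le ?_ ?_)
  · rintro a ⟨-, j, h1, h2, -⟩; omega
  · exact der_le fun a ha b _ => by simp [(mem_bot k).1 ha]

end Pool.Agent.P.MP_618680_al
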