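import Pool.Agent.P.MP_618680_al.Log
import Pool.Agent.P.MP_618680_al.Kreknin

/-! The Lie ring of logarithms of a unipotent representation of small class. -/

set_option autoImplicit false

namespace Pool.Agent.P.MP_618680_al

open Submodule Finset
open scoped commutatorElement

variable {k : Type} [CommRing k] {A : Type} [Ring A] [Algebra k A] {W : Type} [Group W]

/-- Image of the augmentation ideal. -/
def Bs (k : Type) [CommRing k] {A : Type} [Ring A] [Algebra k A] {W : Type} [Group W]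
    (ρ : W →* A) : Submodule k A := span k (Set.range fun w => ρ w - 1)

theorem mem_Bs (ρ : W →* A) (w : W) : ρ w - 1 ∈ Bs k ρ := subset_span ⟨w, rfl⟩

theorem Bs_mul (ρ : W →* A) : Bs k ρ * Bs k ρ ≤ Bs k ρ := by
  rw [Bs, span_mul_span, span_le]
  rintro _ ⟨_, ⟨a, rfl⟩, _, ⟨b, rfl⟩, rfl⟩
  have e : (ρ a - 1) * (ρ b - 1) = (ρ (a * b) - 1) - (ρ a - 1) - (ρ b - 1) := by
    rw [map_mul]; noncomm_ring
  change (ρ a - 1) * (ρ b - 1) ∈ Bs k ρ
  rw [e]
  exact sub_mem (sub_mem (mem_Bs ρ _) (mem_Bs ρ _)) (mem_Bs ρ _)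

theorem Bs_pow_succ (ρ : W →* A) (c : ℕ) : Bs k ρ ^ (c + 2) ≤ Bs k ρ ^ (c + 1) := by
  rw [pow_succ, pow_succ, mul_assoc]
  exact mul_le_mul_right (Bs_mul ρ) _

/-- The subalgebra spanned by the image of the group. -/
def A0 (k : Type) [CommRing k] {A : Type} [Ring A] [Algebra k A] {W : Type} [Group W]
    (ρ : W →* A) : Subalgebra k A :=
  (1 ⊔ Bs k ρ).toSubalgebra (mem_sup_left (Submodule.one_le.1 le_rfl)) (fun x y hx hy => by
    have : (1 ⊔ Bs k ρ) * (1 ⊔ Bs k ρ) ≤ 1 ⊔ Bs k ρ := by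
      rw [Submodule.sup_mul, one_mul, Submodule.mul_sup, mul_one]
      exact sup_le le_rfl (sup_le le_sup_right ((Bs_mul ρ).trans le_sup_right))
    exact this (mul_mem_mul hx hy))

theorem Bs_le_A0 (ρ : W →* A) {a : A} (ha : a ∈ Bs k ρ) : a ∈ A0 k ρ :=
  (mem_sup_right ha : a ∈ (1 ⊔ Bs k ρ : Submodule k A))

theorem mem_A0 (ρ : W →* A) (w : W) : ρ w ∈ A0 k ρ := by
  have := add_mem (Bs_le_A0 ρ (mem_Bs (k := k) ρ w)) (one_mem (A0 k ρ))
  rwa [sub_add_cancel] at this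

theorem A0_mul (ρ : W →* A) (c : ℕ) {t j : A} (ht : t ∈ A0 k ρ) (hj : j ∈ Bs k ρ ^ (c + 1)) :
    t * j ∈ Bs k ρ ^ (c + 1) := by
  have : (1 ⊔ Bs k ρ) * Bs k ρ ^ (c + 1) ≤ Bs k ρ ^ (c + 1) := by
    rw [Submodule.sup_mul, one_mul, ← pow_succ']
    exact sup_le le_rfl (Bs_pow_succ ρ c)
  exact this (mul_mem_mul ht hj)

theorem mul_A0 (ρ : W →* A) (c : ℕ) {t j : A} (ht : t ∈ A0 k ρ) (hj : j ∈ Bs k ρ ^ (c + 1)) :
    j * t ∈ Bs k ρ ^ (c + 1) := by
  have : Bs k ρ ^ (c + 1) * (1 ⊔ Bs k ρ) ≤ Bs k ρ ^ (c + 1) := by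
    rw [Submodule.mul_sup, mul_one, ← pow_succ]
    exact sup_le le_rfl (Bs_pow_succ ρ c)
  exact this (mul_mem_mul hj ht)

theorem pow_eq_zero_of_Bs (ρ : W →* A) {c : ℕ} (h : Bs k ρ ^ c = ⊥) (w : W) :
    (ρ w - 1) ^ c = 0 := by
  have := pow_mem_pow _ (mem_Bs (k := k) ρ w) c
  rwa [h] at this

variable {D : ℕ} {ν : ℕ → k}

theorem lg_sub_mem (hν : IsLin D ν) (hD : 1 ≤ D) (ρ : W →* A) (w : W) :
    lg D ν (ρ w) - (ρ w - 1) ∈ Bs k ρ ^ 2 := by
  obtain ⟨r, hr, e⟩ := lg_form hν hD (ρ w)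
  have hr' : r ∈ A0 k ρ := Algebra.adjoin_le (Set.singleton_subset_iff.2 (mem_A0 ρ w)) hr
  rw [e, add_sub_cancel_left, ← mul_assoc]
  refine mul_A0 ρ 1 hr' ?_
  rw [← sq]
  exact pow_mem_pow _ (mem_Bs ρ w) 2

theorem lg_mem (hν : IsLin D ν) (hD : 1 ≤ D) (ρ : W →* A) (w : W) : lg D ν (ρ w) ∈ Bs k ρ := by
  have := add_mem ((Bs_pow_succ ρ 0).trans (by simp) (lg_sub_mem hν hD ρ w)) (mem_Bs (k := k) ρ w)
  rwa [sub_add_cancel] at this

/-- The span of the logarithms. -/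
def Ls (D : ℕ) (ν : ℕ → k) (ρ : W →* A) : Submodule k A :=
  span k (Set.range fun w => lg D ν (ρ w))

theorem mem_Ls (ρ : W →* A) (w : W) : lg D ν (ρ w) ∈ Ls D ν ρ := subset_span ⟨w, rfl⟩

theorem Ls_le (hν : IsLin D ν) (hD : 1 ≤ D) (ρ : W →* A) : Ls D ν ρ ≤ Bs k ρ := by
  refine span_le.2 ?_
  rintro _ ⟨w, rfl⟩
  exact lg_mem hν hD ρ w

/-- Conjugation as an algebra map. -/
def cj (k : Type) [CommRing k] {A : Type} [Ring A] [Algebra k A] {W : Type} [Group W]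
    (ρ : W →* A) (w : W) : A →ₐ[k] A where
  toFun a := ρ w * a * ρ w⁻¹
  map_one' := by rw [mul_one, ← map_mul]; simp
  map_mul' a b := by
    have : ρ w⁻¹ * ρ w = 1 := by rw [← map_mul]; simp
    calc ρ w * (a * b) * ρ w⁻¹ = ρ w * (a * (ρ w⁻¹ * ρ w) * b) * ρ w⁻¹ := by rw [this, mul_one]
      _ = _ := by noncomm_ring
  map_zero' := by simp
  map_add' a b := by noncomm_ring
  commutes' r := by
    rw [← Algebra.commutes, mul_assoc, ← map_mul]; simp

/-- The adjoint representation. -/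
def Ad (k : Type) [CommRing k] {A : Type} [Ring A] [Algebra k A] {W : Type} [Group W]
    (ρ : W →* A) : W →* Module.End k A where
  toFun w := (cj k ρ w).toLinearMap
  map_one' := by ext a; simp [cj]
  map_mul' v w := by ext a; simp [cj, mul_assoc]

theorem Ad_apply (ρ : W →* A) (w : W) (a : A) : Ad k ρ w a = ρ w * a * ρ w⁻¹ := rfl

theorem Ad_lg (ρ : W →* A) (w v : W) : Ad k ρ w (lg D ν (ρ v)) = lg D ν (ρ (w * v * w⁻¹)) := by
  have := lg_map (cj k ρ w) D ν (ρ v)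
  rw [map_mul, map_mul]
  exact this

theorem Ad_Ls (ρ : W →* A) (w : W) : ∀ a ∈ Ls D ν ρ, Ad k ρ w a ∈ Ls D ν ρ := by
  have : Ls D ν ρ ≤ (Ls D ν ρ).comap (Ad k ρ w) := by
    refine span_le.2 ?_
    rintro _ ⟨v, rfl⟩
    change Ad k ρ w _ ∈ Ls D ν ρ
    rw [Ad_lg]; exact mem_Ls ρ _
  exact fun a ha => this ha

theorem lg_Ad (hν : IsLin D ν) {c : ℕ} (hP : UnitsUpTo k c) (hD : 2 * c ≤ D) (ρ : W →* A)
    (hB : Bs k ρ ^ c = ⊥) (w : W) : lg D ν (Ad k ρ w) = adL k A (lg D ν (ρ w)) := by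
  have h1 := pow_mem_Pol hP (pow_eq_zero_of_Bs ρ hB w)
  have h2 := pow_mem_Pol hP (pow_eq_zero_of_Bs ρ hB w⁻¹)
  have key : ∀ a : A, lin D ν (fun t => ρ w ^ t * a * ρ w⁻¹ ^ t) =
      a * lg D ν (ρ w⁻¹) + lg D ν (ρ w) * a := by
    intro a
    have h3 := lin_mul hν (by omega) (mul_mem_Pol h1 (const_mem_Pol a)) h2
    rw [lin_mul hν (by omega) h1 (const_mem_Pol a), lin_const hν] at h3
    simp only [Pi.mul_apply, pow_zero, one_mul, mul_one, zero_add] at h3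
    exact h3
  have h4 := key 1
  have e : (fun t => ρ w ^ t * 1 * ρ w⁻¹ ^ t) = fun _ : ℕ => (1 : A) := by
    ext t
    rw [mul_one, ← map_pow, ← map_pow, ← map_mul]; simp
  rw [e, lin_const hν, one_mul, mul_one] at h4
  ext a
  have h5 := key a
  rw [eq_neg_of_add_eq_zero_left h4.symm] at h5
  rw [adL_apply, sub_eq_neg_add, ← mul_neg, ← h5, lg, lin_apply, lin_apply, LinearMap.sum_apply]
  refine sum_congr rfl fun t _ => ?_
  rw [LinearMap.smul_apply, ← map_pow, Ad_apply, ← inv_pow, map_pow, map_pow]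

theorem der_Ls (hν : IsLin D ν) {c : ℕ} (hP : UnitsUpTo k c) (hD : 2 * c ≤ D) (ρ : W →* A)
    (hB : Bs k ρ ^ c = ⊥) : der (Ls D ν ρ) ≤ Ls D ν ρ := by
  refine der_le fun a ha b hb => ?_
  have : Ls D ν ρ ≤ (Ls D ν ρ).comap ((adL k A).flip b) := by
    refine span_le.2 ?_
    rintro _ ⟨w, rfl⟩
    change adL k A _ b ∈ Ls D ν ρ
    rw [← lg_Ad hν hP hD ρ hB, lg, lin_apply, LinearMap.sum_apply]
    refine sum_mem fun t _ => ?_
    rw [LinearMap.smul_apply, ← map_pow]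
    exact smul_mem _ _ (Ad_Ls ρ _ b hb)
  have := this ha
  rwa [mem_comap, LinearMap.flip_apply, adL_apply] at this

/-- The twisted norm `x φ(x) ⋯ φ^(s-1)(x)`. -/
def nT (φ : W →* W) : ℕ → W → W
  | 0, _ => 1
  | s + 1, x => nT φ s x * φ^[s] x

theorem sum_lg (hν : IsLin D ν) {c : ℕ} (hP : UnitsUpTo k c) (ρ : W →* A)
    (hB : Bs k ρ ^ c = ⊥) (φ : W →* W) (w : W) (s : ℕ) (hD : s * c ≤ D) :
    (fun t => ρ (nT φ s (w ^ t))) ∈ Pol k A (s * c) ∧ ρ (nT φ s (w ^ 0)) = 1 ∧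
      lin D ν (fun t => ρ (nT φ s (w ^ t))) = ∑ i ∈ range s, lg D ν (ρ (φ^[i] w)) := by
  induction s with
  | zero => exact ⟨by simpa [nT] using const_mem_Pol (k := k) (1 : A), by simp [nT],
      by simpa [nT] using lin_const hν (1 : A)⟩
  | succ s ih =>
    obtain ⟨h1, h2, h3⟩ := ih (by nlinarith)
    have h4 := pow_mem_Pol hP (pow_eq_zero_of_Bs ρ hB (φ^[s] w))
    have e : (fun t => ρ (nT φ (s + 1) (w ^ t))) =
        (fun t => ρ (nT φ s (w ^ t))) * fun t => ρ (φ^[s] w) ^ t := by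
      ext t; simp [nT, iterate_map_pow]
    refine ⟨?_, ?_, ?_⟩
    · rw [e, add_mul, one_mul]; exact mul_mem_Pol h1 h4
    · rw [nT, map_mul, h2]; simp [iterate_map_one]
    · rw [e, lin_mul hν (by nlinarith) h1 h4, h2, h3, sum_range_succ, one_mul, pow_zero, mul_one,
        add_comm]
      rfl

theorem theta_pow_lg (ρ : W →* A) (φ : W →* W) (θ : A →ₐ[k] A) (hθ : ∀ w, θ (ρ w) = ρ (φ w))
    (w : W) (s : ℕ) : (θ.toLinearMap ^ s) (lg D ν (ρ w)) = lg D ν (ρ (φ^[s] w)) := by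
  induction s with
  | zero => simp
  | succ s ih =>
    rw [pow_succ', Module.End.mul_apply, ih, Function.iterate_succ_apply', ← hθ]
    exact lg_map θ D ν _

theorem theta_Ls (ρ : W →* A) (φ : W →* W) (θ : A →ₐ[k] A) (hθ : ∀ w, θ (ρ w) = ρ (φ w)) :
    ∀ a ∈ Ls D ν ρ, θ a ∈ Ls D ν ρ := by
  intro a ha
  have : Ls D ν ρ ≤ (Ls D ν ρ).comap θ.toLinearMap := by
    refine span_le.2 ?_
    rintro _ ⟨v, rfl⟩
    change θ _ ∈ Ls D ν ρ
    rw [lg_map, hθ]; exact mem_Ls ρ _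
  exact this ha

theorem theta_pow_Ls {n : ℕ} (ρ : W →* A) (φ : W →* W) (θ : A →ₐ[k] A)
    (hθ : ∀ w, θ (ρ w) = ρ (φ w)) (hn : ∀ w, φ^[n] w = w) :
    ∀ a ∈ Ls D ν ρ, (θ.toLinearMap ^ n) a = a := by
  intro a ha
  refine LinearMap.eqOn_span' (g := LinearMap.id) ?_ ha
  rintro _ ⟨w, rfl⟩
  rw [theta_pow_lg ρ φ θ hθ, hn]; rfl

theorem Ls_solv {n : ℕ} {ω : kˣ} (hω : GoodRoot n ω) (hν : IsLin D ν) {c : ℕ}
    (hP : UnitsUpTo k c) (hD : (n + 2) * c ≤ D) (ρ : W →* A) (hB : Bs k ρ ^ c = ⊥) (φ : W →* W)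
    (θ : A →ₐ[k] A) (hθ : ∀ w, θ (ρ w) = ρ (φ w)) (hn : ∀ w, φ^[n] w = w)
    (h0 : ∀ w, nT φ n w = 1) : der^[2 ^ n - 1] (Ls D ν ρ) = ⊥ := by
  refine kreknin hω θ _ (der_Ls hν hP (by nlinarith) ρ hB) (theta_Ls ρ φ θ hθ)
    (theta_pow_Ls ρ φ θ hθ hn) fun a ha => ?_
  rw [← LinearMap.sum_apply]
  refine LinearMap.eqOn_span' (g := 0) ?_ ha
  rintro _ ⟨w, rfl⟩
  have h := (sum_lg hν hP ρ hB φ w n (by nlinarith)).2.2
  simp only [h0, map_one, lin_const hν] at h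
  simp only [LinearMap.sum_apply, theta_pow_lg ρ φ θ hθ, LinearMap.zero_apply]
  exact h.symm

theorem Ad_sub_one (ρ : W →* A) (w : W) (i : ℕ) {a : A} (ha : a ∈ Bs k ρ ^ (i + 1)) :
    (Ad k ρ w - 1) a ∈ Bs k ρ ^ (i + 2) := by
  have e : (Ad k ρ w - 1) a = (ρ w - 1) * a * ρ w⁻¹ + a * (ρ w⁻¹ - 1) := by
    rw [LinearMap.sub_apply, Ad_apply, Module.End.one_apply]; noncomm_ring
  rw [e]
  refine add_mem (mul_A0 ρ _ (mem_A0 ρ _) ?_) ?_
  · rw [pow_succ']; exact mul_mem_mul (mem_Bs ρ w) ha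
  · rw [pow_succ]; exact mul_mem_mul ha (mem_Bs ρ _)

theorem Bs_Ad_pow (ρ : W →* A) (m : ℕ) : ∀ f ∈ Bs k (Ad k ρ) ^ m, ∀ i, ∀ a ∈ Bs k ρ ^ (i + 1),
    f a ∈ Bs k ρ ^ (i + 1 + m) := by
  induction m with
  | zero =>
    intro f hf i a ha
    rw [pow_zero, Submodule.mem_one] at hf
    obtain ⟨r, rfl⟩ := hf
    simpa using smul_mem _ r ha
  | succ m ih =>
    intro f hf
    rw [pow_succ] at hf
    refine Submodule.mul_induction_on
      (C := fun f => ∀ i, ∀ a ∈ Bs k ρ ^ (i + 1), f a ∈ Bs k ρ ^ (i + 1 + (m + 1))) hf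
      (fun f hf g hg i a ha => ?_) (fun f g hf hg i a ha => add_mem (hf i a ha) (hg i a ha))
    have h1 : g a ∈ Bs k ρ ^ (i + 2) := by
      have : Bs k (Ad k ρ) ≤ (Bs k ρ ^ (i + 2)).comap (LinearMap.applyₗ a) := by
        refine span_le.2 ?_
        rintro _ ⟨w, rfl⟩
        exact Ad_sub_one ρ w i ha
      exact this hg
    have := ih f hf (i + 1) _ h1
    rwa [show i + 1 + 1 + m = i + 1 + (m + 1) by ring] at this

theorem commute_of_lg (hν : IsLin D ν) {c : ℕ} (hP : UnitsUpTo k c) (hD : 2 * c ≤ D) (hD1 : 1 ≤ D)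
    (ρ : W →* A) (hB : Bs k ρ ^ c = ⊥) (v : W) {z : A}
    (hz : z * lg D ν (ρ v) = lg D ν (ρ v) * z) : ρ v * z * ρ v⁻¹ = z := by
  have hn : IsNilpotent (Ad k ρ v - 1) := by
    have e : Ad k ρ v - 1 = LinearMap.mulLeft k (ρ v - 1) * LinearMap.mulRight k (ρ v⁻¹) +
        LinearMap.mulRight k (ρ v⁻¹ - 1) := by
      ext a
      simp only [LinearMap.sub_apply, Ad_apply, Module.End.one_apply, LinearMap.add_apply,
        Module.End.mul_apply, LinearMap.mulLeft_apply, LinearMap.mulRight_apply]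
      noncomm_ring
    rw [e]
    have c1 : ∀ a b : A, Commute (LinearMap.mulLeft k a : Module.End k A)
      (LinearMap.mulRight k b) := fun a b => LinearMap.commute_mulLeft_right a b
    have c2 : Commute (LinearMap.mulRight k (ρ v⁻¹) : Module.End k A)
        (LinearMap.mulRight k (ρ v⁻¹ - 1)) := by
      ext a
      simp only [Module.End.mul_apply, LinearMap.mulRight_apply]
      noncomm_ring
    refine Commute.isNilpotent_add ((c1 _ _).mul_left c2) ((c1 _ _).isNilpotent_mul_right ⟨c, ?_⟩)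
      ⟨c, ?_⟩
    · rw [LinearMap.pow_mulLeft, pow_eq_zero_of_Bs ρ hB]; simp
    · rw [LinearMap.pow_mulRight, pow_eq_zero_of_Bs ρ hB]; simp
  obtain ⟨e, he, h⟩ := lg_unit hν hD1 hn
  rw [lg_Ad hν hP hD ρ hB] at h
  have h1 : e ((Ad k ρ v - 1) z) = 0 := by
    rw [← Module.End.mul_apply, ← h, adL_apply, hz, sub_self]
  have h2 := ((Module.End.isUnit_iff e).1 he).1 (h1.trans (map_zero e).symm)
  rwa [LinearMap.sub_apply, Ad_apply, Module.End.one_apply, sub_eq_zero] at h2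

theorem map_sub_one' {R Q : Type} [Ring R] [Algebra k R] [Ring Q] [Algebra k Q]
    {T : Subalgebra k R} (π : T →ₐ[k] Q) (t : T) : π (t - 1) = π t - 1 := by
  rw [map_sub, map_one]

theorem derived_trivial (hν : IsLin D ν) {c : ℕ} (hP : UnitsUpTo k c) (hD : 2 * c ≤ D)
    (hD1 : 1 ≤ D) (r : ℕ) : ∀ (A : Type) [Ring A] [Algebra k A] (ρ : W →* A), Bs k ρ ^ c = ⊥ →
      der^[r] (Ls D ν ρ) = ⊥ → derivedSeries W (2 * r) ≤ ρ.ker := by
  induction r with
  | zero =>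
    intro A _ _ ρ hB h w _
    obtain ⟨e, he, h1⟩ := lg_unit hν hD1 ⟨c, pow_eq_zero_of_Bs ρ hB w⟩
    have h2 := mem_Ls (D := D) (ν := ν) ρ w
    rw [show Ls D ν ρ = ⊥ from h, mem_bot, h1, he.mul_right_eq_zero, sub_eq_zero] at h2
    exact h2
  | succ r ih =>
    intro A _ _ ρ hB h
    set K := Ls D ν ρ with hKdef
    have hK : der K ≤ K := der_Ls hν hP hD ρ hB
    set E := der^[r] K with hE
    rw [Function.iterate_succ_apply', ← hE] at h
    obtain ⟨Q, _, _, π, hπ⟩ := exists_stabquot K E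
    have hT : ∀ w, Ad k ρ w ∈ stabT K E := fun w =>
      ⟨Ad_Ls ρ w, der_iter_stable (cj k ρ w).toLinearMap (by simp) (Ad_Ls ρ w) r⟩
    let ρ0 : W →* stabT K E := (Ad k ρ).codRestrict (stabT K E) hT
    let ρ' : W →* Q := (π : stabT K E →* Q).comp ρ0
    let Ψ : Submodule k A → Submodule k Q := fun S => push π (S.map (adL k A))
    have hΨ : ∀ S, der (Ψ S) ≤ Ψ (der S) := fun S =>
      (push_der π _).trans (push_mono π (der_map_le _ adL_br S))
    have h1 := ih Q ρ'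
      (by
        have e1 : Bs k ρ' ≤ push π (Bs k (Ad k ρ)) := by
          refine span_le.2 ?_
          rintro _ ⟨w, rfl⟩
          have := mem_push π (S := Bs k (Ad k ρ)) (t := ρ0 w - 1) (mem_Bs _ w)
          rw [map_sub_one' π (ρ0 w)] at this
          exact this
        rw [eq_bot_iff]
        refine (pow_le_pow_left' e1 c).trans ((push_pow π _ c).trans (push_eq_bot π hπ ?_).le)
        intro f hf
        have h2 : ∀ x ∈ K, f x = 0 := by
          intro x hx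
          have := Bs_Ad_pow ρ c f hf 0 x (by simpa using Ls_le hν hD1 ρ hx)
          rwa [pow_add, hB, mul_bot] at this
        exact ⟨fun x hx => by rw [h2 x hx]; exact zero_mem _,
          fun x hx => h2 x (der_iter_le hK r hx)⟩)
      (by
        have e1 : Ls D ν ρ' ≤ Ψ K := by
          refine span_le.2 ?_
          rintro _ ⟨w, rfl⟩
          have := mem_push π (S := K.map (adL k A)) (t := lg D ν (ρ0 w))
            ⟨_, mem_Ls ρ w, (lg_Ad hν hP hD ρ hB w).symm.trans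
              (lg_map (stabT K E).val D ν (ρ0 w)).symm⟩
          rw [lg_map π D ν (ρ0 w)] at this
          exact this
        rw [eq_bot_iff]
        refine (der_iter_mono e1 r).trans ((der_iter_of hΨ K r).trans (push_eq_bot π hπ ?_).le)
        rintro _ ⟨a, ha, rfl⟩
        refine ⟨fun x hx => ?_, fun x hx => ?_⟩
        · rw [adL_apply, ← neg_sub]
          exact neg_mem (ad_der_iter hK hx r a ha)
        · rw [adL_apply]
          have := br_mem_der (S := E) ha hx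
          rwa [h] at this)
    have hJ : ∀ a ∈ derivedSeries W (2 * r), Ad k ρ a - 1 ∈ stabJ K E := by
      intro a ha
      refine (hπ (ρ0 a - 1)).1 ?_
      exact (map_sub_one' π (ρ0 a)).trans (sub_eq_zero.2 (h1 ha))
    let H1 : Subgroup W :=
      { carrier := {w | ∀ x ∈ K, Ad k ρ w x = x}
        mul_mem' := fun {a b} ha hb x hx => by
          rw [map_mul, Module.End.mul_apply, hb x hx, ha x hx]
        one_mem' := fun x _ => by simp
        inv_mem' := fun {a} ha x hx => by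
          conv_lhs => rw [← ha x hx]
          rw [← Module.End.mul_apply, ← map_mul]; simp }
    have h2 : derivedSeries W (2 * r + 1) ≤ H1 := by
      rw [derivedSeries_succ, Subgroup.commutator_le]
      intro a ha b hb x hx
      have h3 : ∀ a ∈ derivedSeries W (2 * r), ∀ b ∈ derivedSeries W (2 * r), ∀ y ∈ K,
          Ad k ρ (a * b) y = Ad k ρ a y + Ad k ρ b y - y := by
        intro a ha b hb y hy
        have := (hJ a ha).2 _ ((hJ b hb).1 y hy)
        simp only [LinearMap.sub_apply, Module.End.one_apply, map_sub] at this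
        rw [map_mul, Module.End.mul_apply, ← sub_eq_zero, ← this]
        abel
      have hy := Ad_Ls ρ (b * a)⁻¹ x hx
      have e : ⁅a, b⁆ = (a * b) * (b * a)⁻¹ := by group
      rw [e, map_mul, Module.End.mul_apply, h3 a ha b hb _ hy, add_comm, ← h3 b hb a ha _ hy,
        ← Module.End.mul_apply, ← map_mul]
      simp
    rw [show 2 * (r + 1) = (2 * r + 1) + 1 by ring, derivedSeries_succ, Subgroup.commutator_le]
    intro a ha v _
    have h3 := h2 ha _ (mem_Ls ρ v)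
    have h4 : ρ a * lg D ν (ρ v) = lg D ν (ρ v) * ρ a := by
      conv_rhs => rw [← h3]
      rw [Ad_apply, mul_assoc, ← map_mul]; simp
    have h5 := commute_of_lg hν hP hD hD1 ρ hB v h4
    rw [← map_mul, ← map_mul] at h5
    rw [MonoidHom.mem_ker, show ⁅a, v⁆ = a * (v * a * v⁻¹)⁻¹ by group]
    have h6 : ρ (v * a * v⁻¹) * ρ (v * a * v⁻¹)⁻¹ = 1 := by rw [← map_mul]; simp
    rw [map_mul, ← h5, h6]

end Pool.Agent.P.MP_618680_al
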