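import Pool.Agent.P.MP_618680_al.Basic

/-! Polynomial functions, linear coefficients and truncated logarithms. -/

set_option autoImplicit false

namespace Pool.Agent.P.MP_618680_al

open Submodule Finset

variable {k : Type} [CommRing k]

/-- Weights extracting the linear coefficient of a polynomial function of degree at most `D`. -/
def IsLin (D : ℕ) (ν : ℕ → k) : Prop :=
  ∀ i ≤ D, ∑ t ∈ range (D + 1), ν t * (t : k) ^ i = if i = 1 then 1 else 0

theorem exists_isLin {D : ℕ} (h : UnitsUpTo k D) : ∃ ν : ℕ → k, IsLin D ν := by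
  have hu : IsUnit (Matrix.vandermonde fun i : Fin (D + 1) => ((i : ℕ) : k)) := by
    rw [Matrix.isUnit_iff_isUnit_det, Matrix.det_vandermonde]
    refine IsUnit.prod_iff.2 fun i _ => IsUnit.prod_iff.2 fun j hj => ?_
    have hij : (i : ℕ) < j := Fin.lt_def.1 (mem_Ioi.1 hj)
    rw [← Nat.cast_sub hij.le]
    exact h _ (by omega) (by omega)
  obtain ⟨v, hv⟩ := Matrix.vecMul_surjective_iff_isUnit.2 hu
    (fun i => if (i : ℕ) = 1 then 1 else 0)
  refine ⟨fun t => if h : t < D + 1 then v ⟨t, h⟩ else 0, fun i hi => ?_⟩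
  have := congrFun hv ⟨i, by omega⟩
  simp only [Matrix.vecMul, dotProduct, Matrix.vandermonde_apply] at this
  rw [← this, sum_range]
  exact sum_congr rfl fun t _ => by simp [t.2]

variable {A : Type} [Ring A] [Algebra k A]

/-- The linear coefficient. -/
noncomputable def lin (D : ℕ) (ν : ℕ → k) : (ℕ → A) →ₗ[k] A :=
  ∑ t ∈ range (D + 1), ν t • LinearMap.proj t

theorem lin_apply (D : ℕ) (ν : ℕ → k) (f : ℕ → A) :
    lin D ν f = ∑ t ∈ range (D + 1), ν t • f t := by
  simp [lin, LinearMap.sum_apply]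

theorem lin_mono {D : ℕ} {ν : ℕ → k} (hν : IsLin D ν) {i : ℕ} (hi : i ≤ D) (a : A) :
    lin D ν (fun t => (t : k) ^ i • a) = if i = 1 then a else 0 := by
  simp only [lin_apply, smul_smul, ← sum_smul, hν i hi]
  split_ifs <;> simp

theorem lin_const {D : ℕ} {ν : ℕ → k} (hν : IsLin D ν) (a : A) : lin D ν (fun _ => a) = 0 := by
  simpa using lin_mono hν (Nat.zero_le D) a

/-- Polynomial functions of degree at most `d`. -/
def Pol (k : Type) [CommRing k] (A : Type) [Ring A] [Algebra k A] (d : ℕ) : Submodule k (ℕ → A) :=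
  span k {f | ∃ i ≤ d, ∃ a : A, f = fun t : ℕ => (t : k) ^ i • a}

theorem Pol_mono {d e : ℕ} (h : d ≤ e) : Pol k A d ≤ Pol k A e :=
  span_mono fun _ ⟨i, hi, a, ha⟩ => ⟨i, hi.trans h, a, ha⟩

theorem const_mem_Pol (a : A) : (fun _ => a) ∈ Pol k A 0 :=
  subset_span ⟨0, le_rfl, a, by simp⟩

theorem mul_mem_Pol {d e : ℕ} {f g : ℕ → A} (hf : f ∈ Pol k A d) (hg : g ∈ Pol k A e) :
    f * g ∈ Pol k A (d + e) := by
  have : Pol k A d * Pol k A e ≤ Pol k A (d + e) := by
    rw [Pol, Pol, span_mul_span]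
    refine span_mono ?_
    rintro _ ⟨_, ⟨i, hi, a, rfl⟩, _, ⟨j, hj, b, rfl⟩, rfl⟩
    exact ⟨i + j, by omega, a * b, by ext t; simp [smul_smul, pow_add, mul_comm]⟩
  exact this (mul_mem_mul hf hg)

theorem lin_mul {D : ℕ} {ν : ℕ → k} (hν : IsLin D ν) {d e : ℕ} (hde : d + e ≤ D) {f g : ℕ → A}
    (hf : f ∈ Pol k A d) (hg : g ∈ Pol k A e) :
    lin D ν (f * g) = f 0 * lin D ν g + lin D ν f * g 0 := by
  induction hf using span_induction with
  | zero => simp
  | add f f' _ _ h1 h2 => simp only [add_mul, map_add, h1, h2, Pi.add_apply]; abel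
  | smul r f _ h => simp only [smul_mul_assoc, map_smul, h, Pi.smul_apply, smul_add]
  | mem f hf =>
    induction hg using span_induction with
    | zero => simp
    | add g g' _ _ h1 h2 => simp only [mul_add, map_add, h1, h2, Pi.add_apply]; abel
    | smul r g _ h => simp only [mul_smul_comm, map_smul, h, Pi.smul_apply, smul_add]
    | mem g hg =>
      obtain ⟨i, hi, a, rfl⟩ := hf
      obtain ⟨j, hj, b, rfl⟩ := hg
      have e : ((fun t : ℕ => (t : k) ^ i • a) * fun t : ℕ => (t : k) ^ j • b) =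
          fun t : ℕ => (t : k) ^ (i + j) • (a * b) := by
        ext t; simp [smul_smul, pow_add, mul_comm]
      rw [e, lin_mono hν (by omega), lin_mono hν (by omega), lin_mono hν (by omega)]
      rcases i with _ | _ | i <;> rcases j with _ | _ | j <;> simp
      omega

theorem choose_mem_Pol {c : ℕ} (h : UnitsUpTo k c) (i : ℕ) (hi : i ≤ c) (a : A) :
    (fun t : ℕ => (t.choose i : k) • a) ∈ Pol k A i := by
  induction i with
  | zero => simpa using const_mem_Pol a
  | succ i ih =>
    obtain ⟨u, hu⟩ := h (i + 1) (by omega) hi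
    have h1 : (fun t : ℕ => ((t : k) ^ 1 • (1 : A))) ∈ Pol k A 1 := subset_span ⟨1, le_rfl, 1, rfl⟩
    have h2 := sub_mem (mul_mem_Pol (ih (by omega)) h1)
      (smul_mem _ (i : k) (Pol_mono (Nat.le_succ i) (ih (by omega))))
    have e : (fun t : ℕ => (t.choose (i + 1) : k) • a) = ((u⁻¹ : kˣ) : k) •
        (((fun t : ℕ => (t.choose i : k) • a) * fun t : ℕ => ((t : k) ^ 1 • (1 : A))) -
          (i : k) • fun t : ℕ => (t.choose i : k) • a) := by
      ext t
      have e1 : (t.choose (i + 1) : k) * u = t.choose i * (t - i) := by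
        rw [hu]
        rcases le_or_gt i t with h | h
        · rw [← Nat.cast_sub h, ← Nat.cast_mul, ← Nat.cast_mul, Nat.choose_succ_right_eq]
        · rw [Nat.choose_eq_zero_of_lt h, Nat.choose_eq_zero_of_lt (by omega)]; simp
      have e2 : (t.choose (i + 1) : k) = (u⁻¹ : kˣ) * (t.choose i * (t - i)) := by
        rw [← e1, mul_comm _ (u : k), ← mul_assoc]; simp
      simp only [Pi.smul_apply, Pi.sub_apply, Pi.mul_apply, mul_smul_comm, mul_one, smul_smul,
        ← sub_smul, e2]
      congr 1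
      ring
    rw [e]
    exact smul_mem _ _ h2

theorem pow_mem_Pol {c : ℕ} (h : UnitsUpTo k c) {x : A} (hx : (x - 1) ^ c = 0) :
    (fun t => x ^ t) ∈ Pol k A c := by
  have e : (fun t => x ^ t) = ∑ i ∈ range c, fun t : ℕ => (t.choose i : k) • (x - 1) ^ i := by
    ext t
    have h1 := (Commute.one_right (x - 1)).add_pow t
    rw [sub_add_cancel] at h1
    rw [h1, Finset.sum_apply]
    have e1 : ∀ i, (x - 1) ^ i * 1 ^ (t - i) * (t.choose i : A) = (t.choose i : k) • (x - 1) ^ i := by
      intro i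
      rw [one_pow, mul_one, Nat.cast_smul_eq_nsmul, nsmul_eq_mul, Nat.cast_comm]
    simp only [e1]
    rw [sum_subset (range_subset_range.2 (Nat.le_add_right (t + 1) c)),
      sum_subset (range_subset_range.2 (Nat.le_add_left c (t + 1)))]
    · intro i _ hi
      rw [pow_eq_zero_of_le (by simpa using hi) hx, smul_zero]
    · intro i _ hi
      rw [Nat.choose_eq_zero_of_lt (by simpa using hi)]; simp
  rw [e]
  exact sum_mem fun i hi => Pol_mono (mem_range.1 hi).le (choose_mem_Pol h i (mem_range.1 hi).le _)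

/-- The logarithm. -/
noncomputable def lg (D : ℕ) (ν : ℕ → k) (x : A) : A := lin D ν fun t => x ^ t

theorem lg_map {A' : Type} [Ring A'] [Algebra k A'] (f : A →ₐ[k] A') (D : ℕ) (ν : ℕ → k) (x : A) :
    f (lg D ν x) = lg D ν (f x) := by
  simp [lg, lin_apply, map_sum]

theorem lg_form {D : ℕ} {ν : ℕ → k} (hν : IsLin D ν) (hD : 1 ≤ D) (x : A) :
    ∃ r ∈ Algebra.adjoin k {x}, lg D ν x = (x - 1) + (x - 1) * ((x - 1) * r) := by
  have hx : x ∈ Algebra.adjoin k {x} := Algebra.subset_adjoin rfl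
  have h1 : ∀ t : ℕ, ∃ r ∈ Algebra.adjoin k {x},
      x ^ t = 1 + (t : k) • (x - 1) + (x - 1) * ((x - 1) * r) := by
    intro t
    induction t with
    | zero => exact ⟨0, zero_mem _, by simp⟩
    | succ t ih =>
      obtain ⟨r, hr, e⟩ := ih
      refine ⟨r * x + (t : k) • 1, add_mem (mul_mem hr hx) (Subalgebra.smul_mem _ (one_mem _) _), ?_⟩
      rw [pow_succ, e]
      push_cast
      simp only [add_smul, one_smul, add_mul, mul_add, smul_mul_assoc, mul_smul_comm, mul_one,
        mul_assoc]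
      have : (t : k) • ((x - 1) * x) = (t : k) • (x - 1) + (t : k) • ((x - 1) * (x - 1)) := by
        rw [← smul_add]; congr 1; noncomm_ring
      rw [this]
      noncomm_ring
  choose r hr e using h1
  refine ⟨lin D ν r, ?_, ?_⟩
  · rw [lin_apply]
    exact sum_mem fun t _ => Subalgebra.smul_mem _ (hr t) _
  · have e2 : (fun t => x ^ t) = (fun _ => (1 : A)) + (fun t : ℕ => (t : k) ^ 1 • (x - 1)) +
        fun t => (x - 1) * ((x - 1) * r t) := by
      ext t; simp [e t]
    rw [lg, e2, map_add, map_add, lin_const hν, lin_mono hν hD, if_pos rfl, zero_add]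
    simp [lin_apply, mul_sum]

theorem commute_of_adjoin {x r : A} (hr : r ∈ Algebra.adjoin k {x}) : Commute (x - 1) r :=
  Algebra.commute_of_mem_adjoin_of_forall_mem_commute hr (by
    rintro _ rfl
    exact (Commute.refl _).sub_left (Commute.one_left _))

theorem lg_pow {D : ℕ} {ν : ℕ → k} (hν : IsLin D ν) (hD : 1 ≤ D) {x : A} {N : ℕ}
    (hx : (x - 1) ^ N = 0) : lg D ν x ^ N = 0 := by
  obtain ⟨r, hr, e⟩ := lg_form hν hD x
  have hc : Commute (x - 1) (1 + (x - 1) * r) :=
    (Commute.one_right _).add_right ((Commute.refl _).mul_right (commute_of_adjoin hr))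
  rw [e, ← mul_one_add, hc.mul_pow, hx, zero_mul]

theorem lg_unit {D : ℕ} {ν : ℕ → k} (hν : IsLin D ν) (hD : 1 ≤ D) {x : A}
    (hx : IsNilpotent (x - 1)) : ∃ e : A, IsUnit e ∧ lg D ν x = e * (x - 1) := by
  obtain ⟨r, hr, e⟩ := lg_form hν hD x
  have hc : Commute (x - 1) (1 + (x - 1) * r) :=
    (Commute.one_right _).add_right ((Commute.refl _).mul_right (commute_of_adjoin hr))
  refine ⟨1 + (x - 1) * r, ?_, by rw [e, ← mul_one_add, hc.eq]⟩
  exact IsNilpotent.isUnit_one_add ((commute_of_adjoin hr).isNilpotent_mul_right hx)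

end Pool.Agent.P.MP_618680_al
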