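import Pool.Agent.P.MP_618680_al.Bound

/-! The base ring, abelian sections with extended scalars, and their spectrum. -/

set_option autoImplicit false

namespace Pool.Agent.P.MP_618680_al

open Submodule Finset Polynomial
open scoped TensorProduct commutatorElement

/-- Extension of scalars is faithful on abelian groups killed by `E`. -/
def Faith (k : Type) [CommRing k] (E : ℕ) : Prop :=
  ∀ (M : Type) [AddCommGroup M], (∀ m : M, E • m = 0) → ∀ m : M, (1 : k) ⊗ₜ[ℤ] m = 0 → m = 0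

theorem cyclotomic_dvd_geom {n i : ℕ} (hn : 0 < n) (hi : ¬ n ∣ i) :
    cyclotomic n ℤ ∣ ∑ s ∈ range n, (X ^ i) ^ s := by
  have hμ := Complex.isPrimitiveRoot_exp n hn.ne'
  set μ := Complex.exp (2 * Real.pi * Complex.I / n)
  rw [cyclotomic_eq_minpoly hμ hn]
  refine minpoly.isIntegrallyClosed_dvd (hμ.isIntegral hn) ?_
  simp only [map_sum, map_pow, aeval_X]
  have h := mul_geom_sum (μ ^ i) n
  rw [← pow_mul, mul_comm i n, pow_mul, hμ.pow_eq_one, one_pow, sub_self] at h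
  refine (mul_eq_zero.1 h).resolve_left fun h1 => hi ?_
  exact (hμ.pow_eq_one_iff_dvd i).1 (sub_eq_zero.1 h1)

theorem exists_base {n E P : ℕ} (hn : 0 < n) (hP : n ≤ P)
    (hE : ∀ p, p.Prime → p ∣ E → P < p) :
    ∃ (k : Type) (_ : CommRing k) (ω : kˣ), GoodRoot n ω ∧ UnitsUpTo k P ∧ Faith k E := by
  have hg : (cyclotomic n (ZMod E)).Monic := cyclotomic.monic n _
  let k := AdjoinRoot (cyclotomic n (ZMod E))
  let z : k := AdjoinRoot.root _
  have hz : ∀ f : ℤ[X], cyclotomic n ℤ ∣ f → aeval z f = 0 := by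
    rintro _ ⟨f, rfl⟩
    have : aeval z (cyclotomic n ℤ) = 0 := by
      rw [← aeval_map_algebraMap (ZMod E), map_cyclotomic, AdjoinRoot.aeval_eq, AdjoinRoot.mk_self]
    rw [map_mul, this, zero_mul]
  have hzn : z ^ n = 1 := by
    have := hz _ (cyclotomic.dvd_X_pow_sub_one n ℤ)
    simpa [sub_eq_zero] using this
  have hU : UnitsUpTo k P := by
    intro i h1 h2
    have : IsUnit (i : ZMod E) := by
      rw [ZMod.isUnit_iff_coprime]
      refine Nat.coprime_of_dvd fun p hp h3 h4 => ?_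
      have := hE p hp h4
      have := Nat.le_of_dvd (by omega) h3
      omega
    simpa using this.map (algebraMap (ZMod E) k)
  have hnu : IsUnit (n : k) := hU n hn hP
  refine ⟨k, inferInstance, Units.ofPowEqOne z n hzn hn.ne', ⟨hn, Units.pow_ofPowEqOne _ _,
    fun i hi => ?_, hnu⟩, hU, fun M _ hM m hm => ?_⟩
  · have h1 := hz _ (cyclotomic_dvd_geom hn hi)
    simp only [map_sum, map_pow, aeval_X] at h1
    have h2 : z ^ i - 1 ∣ ∑ s ∈ range n, ((z ^ i) ^ s - 1) :=
      dvd_sum fun s _ => by simpa using sub_dvd_pow_sub_pow (z ^ i) 1 s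
    rw [sum_sub_distrib, h1, zero_sub, sum_const, card_range, nsmul_eq_mul, mul_one] at h2
    exact isUnit_of_dvd_unit h2 hnu.neg
  · let : Module (ZMod E) M := AddCommGroup.zmodModule hM
    let τ : k →ₗ[ZMod E] ZMod E := (lcoeff _ 0).comp (AdjoinRoot.modByMonicHom hg)
    have hτ : τ 1 = 1 := by
      rcases subsingleton_or_nontrivial (ZMod E) with h | h
      · exact Subsingleton.elim _ _
      · have e : (1 : k) = AdjoinRoot.mk _ 1 := (map_one _).symm
        simp only [τ, LinearMap.comp_apply, lcoeff_apply]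
        rw [e, AdjoinRoot.modByMonicHom_mk, (modByMonic_eq_self_iff hg).2, coeff_one_zero]
        rw [degree_one, degree_cyclotomic]
        exact_mod_cast Nat.totient_pos.2 hn
    let f : k ⊗[ℤ] M →ₗ[ℤ] M := TensorProduct.lift
      (LinearMap.mk₂ ℤ (fun a x => τ a • x) (fun a b x => by rw [map_add, add_smul])
        (fun c a x => by rw [map_zsmul, smul_assoc]) (fun a x y => smul_add _ _ _)
        (fun c a x => smul_comm _ _ _))
    have h1 : f (1 ⊗ₜ m) = τ 1 • m := TensorProduct.lift.tmul _ _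
    rw [hm, map_zero, hτ, one_smul] at h1
    exact h1.symm

variable {k : Type} [CommRing k] {G : Type} [Group G]

theorem exists_rep {E : ℕ} (hF : Faith k E) (hE : ∀ x : G, x ^ E = 1) (U : Subgroup G) :
    ∃ (V : Type) (_ : AddCommGroup V) (_ : Module k V) (lam : G → V),
      (∀ x ∈ U, ∀ y ∈ U, lam (x * y) = lam x + lam y) ∧ (∀ x ∈ U, lam x = 0 → x ∈ ⁅U, U⁆) ∧
      span k (lam '' U) = ⊤ ∧ ∀ f : G →* G, (∀ x ∈ U, f x ∈ U) →
        ∃ F : Module.End k V, ∀ x ∈ U, F (lam x) = lam (f x) := by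
  classical
  let M := Additive (Abelianization U)
  let lam : G → k ⊗[ℤ] M := fun x =>
    if h : x ∈ U then (1 : k) ⊗ₜ Additive.ofMul (Abelianization.of ⟨x, h⟩) else 0
  have hl : ∀ x (h : x ∈ U), lam x = (1 : k) ⊗ₜ Additive.ofMul (Abelianization.of ⟨x, h⟩) :=
    fun x h => dif_pos h
  have hs : ∀ m : M, ∃ x : U, m = Additive.ofMul (Abelianization.of x) := fun m => by
    obtain ⟨x, hx⟩ := QuotientGroup.mk_surjective (Additive.toMul m)
    exact ⟨x, congrArg Additive.ofMul hx.symm⟩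
  refine ⟨k ⊗[ℤ] M, inferInstance, inferInstance, lam, fun x hx y hy => ?_, fun x hx h => ?_, ?_,
    fun f hf => ?_⟩
  · rw [hl x hx, hl y hy, hl _ (U.mul_mem hx hy), ← TensorProduct.tmul_add, ← ofMul_mul, ← map_mul]
    rfl
  · rw [hl x hx] at h
    have h1 := hF M (fun m => by
      obtain ⟨x, rfl⟩ := hs m
      rw [← ofMul_pow, ← map_pow, show x ^ E = 1 from Subtype.ext (hE x), map_one, ofMul_one]) _ h
    have h2 : (⟨x, hx⟩ : U) ∈ commutator U := by
      rw [← Abelianization.ker_of]; exact h1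
    have h3 := dser_eq_map U 1
    rw [show dser U 1 = ⁅U, U⁆ from rfl, derivedSeries_one] at h3
    rw [h3]
    exact ⟨_, h2, rfl⟩
  · rw [eq_top_iff]
    rintro v -
    induction v using TensorProduct.induction_on with
    | zero => exact zero_mem _
    | add a b ha hb => exact add_mem ha hb
    | tmul a m =>
      obtain ⟨x, rfl⟩ := hs m
      have : a ⊗ₜ[ℤ] Additive.ofMul (Abelianization.of x) = a • lam x := by
        rw [hl x x.2, TensorProduct.smul_tmul', smul_eq_mul, mul_one]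
      rw [this]
      exact smul_mem _ _ (subset_span ⟨x, x.2, rfl⟩)
  · refine ⟨LinearMap.baseChange k
      (MonoidHom.toAdditive (Abelianization.map (res f U hf))).toIntLinearMap, fun x hx => ?_⟩
    rw [hl x hx, hl _ (hf x hx), LinearMap.baseChange_tmul]
    rfl

/-- The product of the geometric sums of lengths `1, …, d`. -/
def Fg {S : Type} [Semiring S] (z : S) : ℕ → S
  | 0 => 1
  | d + 1 => (∑ i ∈ range (d + 1), z ^ i) * Fg z d

theorem Fg_eigen {V : Type} [AddCommGroup V] [Module k V] {Φ : Module.End k V} {z : k} {v : V}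
    (h : Φ v = z • v) (d : ℕ) : Fg Φ d v = Fg z d • v := by
  induction d with
  | zero => simp [Fg]
  | succ d ih =>
    rw [Fg, Fg, Module.End.mul_apply, ih, map_smul, LinearMap.sum_apply]
    simp only [pow_apply_eigen h]
    rw [← sum_smul, smul_smul, mul_comm]

theorem Fg_unit {n : ℕ} {ω : kˣ} (hω : GoodRoot n ω) {d : ℕ} (hP : UnitsUpTo k d) {i : ℕ}
    (hi : n ∣ i ∨ ∀ s, 1 ≤ s → s ≤ d → ¬ n ∣ i * s) : IsUnit (Fg ((ω : k) ^ i) d) := by
  induction d with
  | zero => simp [Fg]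
  | succ d ih =>
    rw [Fg]
    refine IsUnit.mul ?_ (ih (hP.mono (by omega)) (hi.imp id fun h s h1 h2 => h s h1 (by omega)))
    rcases hi with ⟨c, rfl⟩ | hi
    · rw [pow_mul, ← Units.val_pow_eq_pow_val ω n, hω.pow]
      simpa using hP (d + 1) (by omega) le_rfl
    · have h := hω.unit _ (hi (d + 1) (by omega) le_rfl)
      rw [pow_mul, ← mul_geom_sum] at h
      exact isUnit_of_mul_isUnit_right h

theorem number_lemma {n : ℕ} (hn : 0 < n) (i j d : ℕ) (h : ∀ s, 1 ≤ s → s ≤ d → ¬ n ∣ j * s) :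
    ∃ t < n, n ∣ i + t * j ∨ ∀ s, 1 ≤ s → s ≤ d + 1 → ¬ n ∣ (i + t * j) * s := by
  suffices ∃ t, n ∣ i + t * j ∨ ∀ s, 1 ≤ s → s ≤ d + 1 → ¬ n ∣ (i + t * j) * s by
    obtain ⟨t, ht⟩ := this
    have e : i + t * j = (i + t % n * j) + n * (t / n * j) := by
      conv_lhs => rw [← Nat.mod_add_div t n]
      ring
    refine ⟨t % n, Nat.mod_lt _ hn, ht.imp (fun h1 => ?_) fun h1 s h2 h3 h4 => h1 s h2 h3 ?_⟩
    · rw [e] at h1
      exact (Nat.dvd_add_left (dvd_mul_right _ _)).1 h1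
    · rw [e, add_mul]
      exact dvd_add h4 ((dvd_mul_right _ _).mul_right _)
  set g := Nat.gcd (Nat.gcd i j) n with hg
  have hg0 : 0 < g := Nat.gcd_pos_of_pos_right _ hn
  obtain ⟨a, ha⟩ : g ∣ i := (Nat.gcd_dvd_left _ _).trans (Nat.gcd_dvd_left _ _)
  obtain ⟨b, hb⟩ : g ∣ j := (Nat.gcd_dvd_left _ _).trans (Nat.gcd_dvd_right _ _)
  obtain ⟨m, hm⟩ : g ∣ n := Nat.gcd_dvd_right _ _
  have hc : Nat.gcd (Nat.gcd a b) m = 1 := by
    have := hg
    conv_rhs at this => rw [ha, hb, hm, Nat.gcd_mul_left, Nat.gcd_mul_left]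
    exact (Nat.eq_of_mul_eq_mul_left hg0 ((mul_one g).trans this)).symm
  clear_value g
  subst ha hb hm
  have hm0 : 0 < m := Nat.pos_of_mul_pos_left hn
  have hmd : d < m := by
    by_contra h1
    exact h m hm0 (by omega) ⟨b, by ring⟩
  rcases (show d + 1 < m ∨ m = d + 1 by omega) with h1 | h1
  · let ps : Finset ℕ := {p ∈ m.primeFactors | ¬p ∣ a}
    have hcop : (a + ps.prod id * b).Coprime m := by
      apply Nat.coprime_of_dvd
      intro p pp hp hpn
      by_cases hpx : p ∣ a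
      · rcases pp.dvd_mul.mp ((Nat.dvd_add_right hpx).1 hp) with h | h
        · have ⟨q, hq, hq'⟩ := (pp.prime.dvd_finsetProd_iff id).mp h
          rw [Finset.mem_filter, Nat.mem_primeFactors,
            ← (Nat.prime_dvd_prime_iff_eq pp hq.1.1).mp hq'] at hq
          exact hq.2 hpx
        · have := Nat.dvd_gcd (Nat.dvd_gcd hpx h) hpn
          rw [hc] at this
          exact pp.one_lt.ne' (Nat.dvd_one.1 this)
      · have pps : p ∈ ps :=
          Finset.mem_filter.mpr ⟨Nat.mem_primeFactors.mpr ⟨pp, hpn, hm0.ne'⟩, hpx⟩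
        exact hpx ((Nat.dvd_add_left ((dvd_prod_of_mem id pps).mul_right _)).1 hp)
    refine ⟨ps.prod id, Or.inr fun s h2 h3 h4 => ?_⟩
    rw [show (g * a + ps.prod id * (g * b)) * s = g * ((a + ps.prod id * b) * s) by ring,
      Nat.mul_dvd_mul_iff_left hg0] at h4
    have := Nat.le_of_dvd h2 (hcop.symm.dvd_of_dvd_mul_left h4)
    omega
  · have hcop : b.Coprime m := by
      by_contra h2
      obtain ⟨p, pp, ⟨b', rfl⟩, ⟨m', hm'⟩⟩ := Nat.Prime.not_coprime_iff_dvd.1 h2
      have h3 : 0 < m' := Nat.pos_of_mul_pos_left (hm' ▸ hm0)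
      refine h m' h3 (by nlinarith [pp.two_le]) ⟨b', by rw [hm']; ring⟩
    obtain ⟨t, -, ht⟩ := Nat.exists_mul_mod_eq_of_coprime (a * (m - 1)) hcop hm0.ne'
    refine ⟨t, Or.inl ?_⟩
    rw [show g * a + t * (g * b) = g * (a + b * t) by ring]
    refine Nat.mul_dvd_mul_left g ((Nat.modEq_zero_iff_dvd).1 ?_)
    have h2 : a + b * t ≡ a + a * (m - 1) [MOD m] := Nat.ModEq.add_left a ht
    refine h2.trans ((Nat.modEq_zero_iff_dvd).2 ⟨a, ?_⟩)
    rw [h1]; simp; ring

theorem spec_pow {V : Type} [AddCommGroup V] [Module k V] {n : ℕ} {ω : kˣ} (hω : GoodRoot n ω)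
    {d : ℕ} (hP : UnitsUpTo k (d + 1)) (Φ : Module.End k V) (hΦ : Φ ^ n = 1)
    (hnil : ∀ v, ∃ r, (Fg Φ (d + 1) ^ r) v = 0) (j : ℕ) (u : Module.End k V)
    (hu : Φ * u = ((ω ^ j : kˣ) : k) • (u * Φ)) (hj : ∀ s, 1 ≤ s → s ≤ d → ¬ n ∣ j * s) :
    u ^ n = 0 := by
  ext v
  rw [← sum_eP hω Φ v, map_sum, LinearMap.zero_apply]
  refine sum_eq_zero fun i _ => ?_
  have h1 := eP_eigen (θ := Φ) (hω.pow_pow i) (a := v) (by rw [hΦ]; rfl)
  set w := eP n Φ (ω ^ i) v
  have h2 : ∀ t, Φ ((u ^ t) w) = (ω : k) ^ (i + t * j) • (u ^ t) w := by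
    intro t
    induction t with
    | zero => simpa using h1
    | succ t ih =>
      rw [pow_succ', Module.End.mul_apply, ← Module.End.mul_apply Φ, hu, LinearMap.smul_apply,
        Module.End.mul_apply, ih, map_smul, smul_smul, Units.val_pow_eq_pow_val, ← pow_add]
      congr 2; ring
  obtain ⟨t, ht, h3⟩ := number_lemma hω.pos i j d hj
  obtain ⟨r, hr⟩ := hnil ((u ^ t) w)
  rw [pow_apply_eigen (Fg_eigen (h2 t) (d + 1))] at hr
  have h4 := ((Fg_unit hω hP h3).pow r).smul_eq_zero.1 hr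
  obtain ⟨c, rfl⟩ := Nat.exists_eq_add_of_le' ht.le
  rw [pow_add, Module.End.mul_apply, h4, map_zero]

end Pool.Agent.P.MP_618680_al
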